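import Mathlib

set_option autoImplicit false

/-!
A second-order sufficient condition for jammedness of spherical codes.
-/

namespace H16Jam

open scoped BigOperators RealInnerProductSpace
open Filter Topology

variable {ι : Type*} [Fintype ι] {E : Type*} [NormedAddCommGroup E] [InnerProductSpace ℝ E]
  [FiniteDimensional ℝ E]

/-- Norm preserving continuous linear maps. -/
def isoSet (E : Type*) [NormedAddCommGroup E] [InnerProductSpace ℝ E] : Set (E →L[ℝ] E) :=
  {g | ∀ w, ‖g w‖ = ‖w‖}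

lemma isoSet_compact : IsCompact (isoSet E) := by
  have : ProperSpace (E →L[ℝ] E) := FiniteDimensional.proper_real _
  apply Metric.isCompact_of_isClosed_isBounded
  · have : isoSet E = ⋂ w : E, {g : E →L[ℝ] E | ‖g w‖ = ‖w‖} := by
      ext g; simp [isoSet]
    rw [this]
    apply isClosed_iInter
    intro w
    exact isClosed_eq ((ContinuousLinearMap.apply ℝ E w).continuous.norm) continuous_const
  · rw [isBounded_iff_forall_norm_le]
    refine ⟨1, fun g hg => ?_⟩
    apply ContinuousLinearMap.opNorm_le_bound _ zero_le_one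
    intro w
    rw [hg w, one_mul]

lemma isoSet_inner {g : E →L[ℝ] E} (hg : g ∈ isoSet E) (u w : E) : ⟪g u, g w⟫ = ⟪u, w⟫ := by
  have := (⟨g.toLinearMap, hg⟩ : E →ₗᵢ[ℝ] E).inner_map_map u w
  simpa using this

/-- Cayley transform. -/
lemma cayley (A : E →ₗ[ℝ] E) (hA : ∀ u w, ⟪A u, w⟫ = -⟪u, A w⟫) :
    ∃ C : ℝ, 0 ≤ C ∧ (∀ w, ‖A w‖ ≤ C * ‖w‖) ∧ ∀ t : ℝ, ∃ g ∈ isoSet E,
      ∀ w, ‖g w - w + t • A w‖ ≤ t ^ 2 * C ^ 2 * ‖w‖ := by
  set B := LinearMap.toContinuousLinearMap A with hB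
  have hBn : ∀ w, ‖A w‖ ≤ ‖B‖ * ‖w‖ := fun w => B.le_opNorm w
  refine ⟨‖B‖, norm_nonneg _, hBn, fun t => ?_⟩
  have hAs : ∀ u, ⟪A u, u⟫ = 0 := by
    intro u
    have := hA u u
    rw [real_inner_comm u (A u)] at this
    have h2 : ⟪A u, u⟫ = ⟪u, A u⟫ := real_inner_comm _ _
    linarith [hA u u]
  set S : E →ₗ[ℝ] E := (t / 2) • A with hS
  have hSs : ∀ u, ⟪S u, u⟫ = 0 := by
    intro u
    simp [hS, inner_smul_left, hAs]
  have hinj : Function.Injective (LinearMap.id + S : E →ₗ[ℝ] E) := by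
    rw [← LinearMap.ker_eq_bot, LinearMap.ker_eq_bot']
    intro u hu
    have h1 : ⟪u + S u, u⟫ = 0 := by
      have : u + S u = 0 := by simpa using hu
      rw [this, inner_zero_left]
    rw [inner_add_left, hSs, add_zero] at h1
    exact inner_self_eq_zero.mp h1
  set M := LinearEquiv.ofInjectiveEndo _ hinj with hM
  have hMa : ∀ u, M u = u + S u := by
    intro u
    simp [hM]
  set g0 : E →ₗ[ℝ] E := M.symm.toLinearMap ∘ₗ (LinearMap.id - S) with hg0
  have hg0a : ∀ w, g0 w + S (g0 w) = w - S w := by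
    intro w
    rw [← hMa]
    simp [hg0]
  have hh1 : ∀ w, g0 w - w = - S (g0 w + w) := by
    intro w
    have h2 : g0 w - w = (g0 w + S (g0 w)) - S (g0 w) - w := by abel
    rw [h2, hg0a w, map_add]; abel
  have hnorm : ∀ w, ‖g0 w‖ = ‖w‖ := by
    intro w
    have h1 : g0 w - w = - S (g0 w + w) := hh1 w
    have h2 : ⟪g0 w - w, g0 w + w⟫ = 0 := by
      rw [h1, inner_neg_left, hSs, neg_zero]
    rw [inner_sub_left, inner_add_right, inner_add_right, real_inner_self_eq_norm_sq,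
      real_inner_self_eq_norm_sq, real_inner_comm w (g0 w)] at h2
    have h3 : ‖g0 w‖ ^ 2 = ‖w‖ ^ 2 := by
      have := real_inner_comm w (g0 w)
      linarith
    exact (sq_eq_sq₀ (norm_nonneg _) (norm_nonneg _)).mp h3
  refine ⟨LinearMap.toContinuousLinearMap g0, fun w => hnorm w, fun w => ?_⟩
  have h1 : g0 w - w = - S (g0 w + w) := hh1 w
  have h2 : g0 w - w + t • A w = S (S (g0 w + w)) := by
    have h3 : t • A w = S w + S w := by
      simp only [hS, LinearMap.smul_apply]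
      rw [← add_smul]; congr 1; ring
    have h4 : S (g0 w - w) = - S (S (g0 w + w)) := by rw [h1, map_neg]
    rw [map_sub] at h4
    have h5 : S (S (g0 w + w)) = S w - S (g0 w) := by
      rw [← neg_sub (S (g0 w)) (S w), h4, neg_neg]
    rw [h5, h3, h1, map_add]; abel
  have hSn : ∀ u, ‖S u‖ ≤ |t| / 2 * ‖B‖ * ‖u‖ := by
    intro u
    simp only [hS, LinearMap.smul_apply, norm_smul, Real.norm_eq_abs, abs_div, abs_two]
    have := hBn u
    have h0 : 0 ≤ |t| / 2 := by positivity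
    nlinarith [mul_le_mul_of_nonneg_left this h0]
  show ‖g0 w - w + t • A w‖ ≤ _
  rw [h2]
  have h5 : ‖g0 w + w‖ ≤ 2 * ‖w‖ := by
    calc ‖g0 w + w‖ ≤ ‖g0 w‖ + ‖w‖ := norm_add_le _ _
      _ = 2 * ‖w‖ := by rw [hnorm]; ring
  have h0 : 0 ≤ |t| / 2 * ‖B‖ := by positivity
  calc ‖S (S (g0 w + w))‖ ≤ |t| / 2 * ‖B‖ * ‖S (g0 w + w)‖ := hSn _
    _ ≤ |t| / 2 * ‖B‖ * (|t| / 2 * ‖B‖ * ‖g0 w + w‖) :=
        mul_le_mul_of_nonneg_left (hSn _) h0
    _ ≤ |t| / 2 * ‖B‖ * (|t| / 2 * ‖B‖ * (2 * ‖w‖)) :=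
        mul_le_mul_of_nonneg_left (mul_le_mul_of_nonneg_left h5 h0) h0
    _ = |t| ^ 2 * ‖B‖ ^ 2 * ‖w‖ / 2 := by ring
    _ = t ^ 2 * ‖B‖ ^ 2 * ‖w‖ / 2 := by rw [sq_abs]
    _ ≤ t ^ 2 * ‖B‖ ^ 2 * ‖w‖ := by
        have : 0 ≤ t ^ 2 * ‖B‖ ^ 2 * ‖w‖ := by positivity
        linarith

omit [FiniteDimensional ℝ E] in
/-- A family with vanishing symmetrised cross Gram matrix is an infinitesimal rotation. -/
lemma exists_skew (x v : ι → E) (hspan : Submodule.span ℝ (Set.range x) = ⊤)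
    (h : ∀ i j, ⟪x i, v j⟫ + ⟪v i, x j⟫ = 0) :
    ∃ A : E →ₗ[ℝ] E, (∀ u w, ⟪A u, w⟫ = -⟪u, A w⟫) ∧ ∀ i, v i = A (x i) := by
  classical
  set L := Fintype.linearCombination ℝ x with hL
  set M := Fintype.linearCombination ℝ v with hM
  have hLs : Function.Surjective L := by
    rw [← LinearMap.range_eq_top, hL, Fintype.range_linearCombination]
    exact hspan
  have hbil : ∀ a b : ι → ℝ, ⟪M a, L b⟫ = -⟪L a, M b⟫ := by
    intro a b
    simp only [hL, hM, Fintype.linearCombination_apply, sum_inner, inner_sum, inner_smul_left,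
      inner_smul_right, RCLike.conj_to_real]
    rw [← Finset.sum_neg_distrib]
    apply Finset.sum_congr rfl
    intro i _
    rw [Finset.mul_sum, Finset.mul_sum, ← Finset.sum_neg_distrib]
    apply Finset.sum_congr rfl
    intro j _
    have h3 : ⟪v j, x i⟫ = -⟪x j, v i⟫ := by linarith [h j i]
    rw [h3]; ring
  have hker : ∀ a, L a = 0 → M a = 0 := by
    intro a ha
    have h1 : ∀ w, ⟪M a, w⟫ = 0 := by
      intro w
      obtain ⟨b, rfl⟩ := hLs w
      rw [hbil, ha, inner_zero_left, neg_zero]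
    exact inner_self_eq_zero.mp (h1 (M a))
  obtain ⟨g, hg⟩ := LinearMap.exists_rightInverse_of_surjective L (LinearMap.range_eq_top.mpr hLs)
  have hg' : ∀ w, L (g w) = w := fun w => by
    have := LinearMap.congr_fun hg w
    simpa using this
  refine ⟨M ∘ₗ g, fun u w => ?_, fun i => ?_⟩
  · have := hbil (g u) (g w)
    rw [hg', hg'] at this
    simpa using this
  · have h1 : L (Pi.single i 1) = x i := by simp [hL]
    have h2 : M (Pi.single i 1) = v i := by simp [hM]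
    have h3 : L (g (x i) - Pi.single i 1) = 0 := by rw [map_sub, hg', h1, sub_self]
    have h4 := hker _ h3
    rw [map_sub, h2, sub_eq_zero] at h4
    simpa using h4.symm

end H16Jam
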