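import Mathlib

set_option autoImplicit false

namespace H16Jam

open scoped BigOperators

noncomputable section

/-- `√3` -/
def s : ℝ := Real.sqrt 3

lemma s_sq : s * s = 3 := Real.mul_self_sqrt (by norm_num)

lemma s_pos : 0 < s := Real.sqrt_pos.mpr (by norm_num)

lemma s_lo : 1.73205 < s := by
  have := s_sq; have := s_pos; nlinarith

lemma s_hi : s < 1.73206 := by
  have := s_sq; have := s_pos; nlinarith

/-- `cos (π k / 6)` -/
def co (k : ZMod 12) : ℝ :=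
  (![1, s / 2, 1 / 2, 0, -1 / 2, -s / 2, -1, -s / 2, -1 / 2, 0, 1 / 2, s / 2] : Fin 12 → ℝ) k

/-- `sin (π k / 6)` -/
def si (k : ZMod 12) : ℝ :=
  (![0, 1 / 2, s / 2, 1, s / 2, 1 / 2, 0, -1 / 2, -s / 2, -1, -s / 2, -1 / 2] : Fin 12 → ℝ) k

@[simp] lemma co_0 : co 0 = 1 := rfl
@[simp] lemma co_1 : co 1 = s / 2 := rfl
@[simp] lemma co_2 : co 2 = 1 / 2 := rfl
@[simp] lemma co_3 : co 3 = 0 := rfl
@[simp] lemma co_4 : co 4 = -1 / 2 := rfl
@[simp] lemma co_5 : co 5 = -s / 2 := rfl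
@[simp] lemma co_6 : co 6 = -1 := rfl
@[simp] lemma co_7 : co 7 = -s / 2 := rfl
@[simp] lemma co_8 : co 8 = -1 / 2 := rfl
@[simp] lemma co_9 : co 9 = 0 := rfl
@[simp] lemma co_10 : co 10 = 1 / 2 := rfl
@[simp] lemma co_11 : co 11 = s / 2 := rfl
@[simp] lemma si_0 : si 0 = 0 := rfl
@[simp] lemma si_1 : si 1 = 1 / 2 := rfl
@[simp] lemma si_2 : si 2 = s / 2 := rfl
@[simp] lemma si_3 : si 3 = 1 := rfl
@[simp] lemma si_4 : si 4 = s / 2 := rfl
@[simp] lemma si_5 : si 5 = 1 / 2 := rfl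
@[simp] lemma si_6 : si 6 = 0 := rfl
@[simp] lemma si_7 : si 7 = -1 / 2 := rfl
@[simp] lemma si_8 : si 8 = -s / 2 := rfl
@[simp] lemma si_9 : si 9 = -1 := rfl
@[simp] lemma si_10 : si 10 = -s / 2 := rfl
@[simp] lemma si_11 : si 11 = -1 / 2 := rfl

/-- case split over `ZMod 12` -/
lemma zcases {p : ZMod 12 → Prop} (h0 : p 0) (h1 : p 1) (h2 : p 2) (h3 : p 3) (h4 : p 4)
    (h5 : p 5) (h6 : p 6) (h7 : p 7) (h8 : p 8) (h9 : p 9) (h10 : p 10) (h11 : p 11) :
    ∀ k, p k := by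
  intro k
  have : k = 0 ∨ k = 1 ∨ k = 2 ∨ k = 3 ∨ k = 4 ∨ k = 5 ∨ k = 6 ∨ k = 7 ∨ k = 8 ∨ k = 9 ∨
      k = 10 ∨ k = 11 := by revert k; decide
  rcases this with h | h | h | h | h | h | h | h | h | h | h | h <;> rw [h] <;> assumption

lemma z_add_one :
    ((0 : ZMod 12) + 1 = 1) ∧ ((1 : ZMod 12) + 1 = 2) ∧ ((2 : ZMod 12) + 1 = 3) ∧
    ((3 : ZMod 12) + 1 = 4) ∧ ((4 : ZMod 12) + 1 = 5) ∧ ((5 : ZMod 12) + 1 = 6) ∧
    ((6 : ZMod 12) + 1 = 7) ∧ ((7 : ZMod 12) + 1 = 8) ∧ ((8 : ZMod 12) + 1 = 9) ∧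
    ((9 : ZMod 12) + 1 = 10) ∧ ((10 : ZMod 12) + 1 = 11) ∧ ((11 : ZMod 12) + 1 = 0) := by
  decide

lemma co_succ : ∀ k, co (k + 1) = co k * (s / 2) - si k * (1 / 2) := by
  obtain ⟨e0, e1, e2, e3, e4, e5, e6, e7, e8, e9, e10, e11⟩ := z_add_one
  have := s_sq
  apply zcases <;>
    simp only [e0, e1, e2, e3, e4, e5, e6, e7, e8, e9, e10, e11, co_0, co_1, co_2, co_3, co_4, co_5,
      co_6, co_7, co_8, co_9, co_10, co_11, si_0, si_1, si_2, si_3, si_4, si_5, si_6, si_7, si_8,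
      si_9, si_10, si_11] <;> nlinarith

lemma si_succ : ∀ k, si (k + 1) = si k * (s / 2) + co k * (1 / 2) := by
  obtain ⟨e0, e1, e2, e3, e4, e5, e6, e7, e8, e9, e10, e11⟩ := z_add_one
  have := s_sq
  apply zcases <;>
    simp only [e0, e1, e2, e3, e4, e5, e6, e7, e8, e9, e10, e11, co_0, co_1, co_2, co_3, co_4, co_5,
      co_6, co_7, co_8, co_9, co_10, co_11, si_0, si_1, si_2, si_3, si_4, si_5, si_6, si_7, si_8,
      si_9, si_10, si_11] <;> nlinarith

/-- The character of `ZMod 12`. -/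
def χ (k : ZMod 12) : ℂ := ⟨co k, si k⟩

@[simp] lemma χ_re (k : ZMod 12) : (χ k).re = co k := rfl
@[simp] lemma χ_im (k : ZMod 12) : (χ k).im = si k := rfl

lemma χ_succ (k : ZMod 12) : χ (k + 1) = χ k * χ 1 := by
  apply Complex.ext
  · rw [Complex.mul_re]; simp only [χ_re, χ_im, co_succ, co_1, si_1]
  · rw [Complex.mul_im]; simp only [χ_re, χ_im, si_succ, co_1, si_1]; ring

@[simp] lemma χ_zero : χ 0 = 1 := by
  apply Complex.ext <;> simp

lemma χ_add (k l : ZMod 12) : χ (k + l) = χ k * χ l := by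
  have key : ∀ n : ℕ, χ (k + (n : ZMod 12)) = χ k * χ (n : ZMod 12) := by
    intro n
    induction n with
    | zero => simp
    | succ n ih =>
      rw [Nat.cast_succ, ← add_assoc, χ_succ, ih, χ_succ, mul_assoc]
  have := key l.val
  rwa [ZMod.natCast_zmod_val] at this

lemma co_add (k l : ZMod 12) : co (k + l) = co k * co l - si k * si l := by
  have := congrArg Complex.re (χ_add k l)
  rwa [Complex.mul_re] at this

lemma si_add (k l : ZMod 12) : si (k + l) = si k * co l + co k * si l := by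
  have := congrArg Complex.im (χ_add k l)
  rw [Complex.mul_im] at this
  simp only [χ_re, χ_im] at this
  rw [this]; ring

lemma co_neg : ∀ k, co (-k) = co k := by
  have e : (-(0 : ZMod 12) = 0) ∧ (-(1 : ZMod 12) = 11) ∧ (-(2 : ZMod 12) = 10) ∧
    (-(3 : ZMod 12) = 9) ∧ (-(4 : ZMod 12) = 8) ∧ (-(5 : ZMod 12) = 7) ∧
    (-(6 : ZMod 12) = 6) ∧ (-(7 : ZMod 12) = 5) ∧ (-(8 : ZMod 12) = 4) ∧
    (-(9 : ZMod 12) = 3) ∧ (-(10 : ZMod 12) = 2) ∧ (-(11 : ZMod 12) = 1) := by decide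
  obtain ⟨e0, e1, e2, e3, e4, e5, e6, e7, e8, e9, e10, e11⟩ := e
  apply zcases <;>
    simp only [e0, e1, e2, e3, e4, e5, e6, e7, e8, e9, e10, e11, co_0, co_1, co_2, co_3, co_4, co_5,
      co_6, co_7, co_8, co_9, co_10, co_11]

lemma si_neg : ∀ k, si (-k) = - si k := by
  have e : (-(0 : ZMod 12) = 0) ∧ (-(1 : ZMod 12) = 11) ∧ (-(2 : ZMod 12) = 10) ∧
    (-(3 : ZMod 12) = 9) ∧ (-(4 : ZMod 12) = 8) ∧ (-(5 : ZMod 12) = 7) ∧
    (-(6 : ZMod 12) = 6) ∧ (-(7 : ZMod 12) = 5) ∧ (-(8 : ZMod 12) = 4) ∧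
    (-(9 : ZMod 12) = 3) ∧ (-(10 : ZMod 12) = 2) ∧ (-(11 : ZMod 12) = 1) := by decide
  obtain ⟨e0, e1, e2, e3, e4, e5, e6, e7, e8, e9, e10, e11⟩ := e
  apply zcases <;>
    simp only [e0, e1, e2, e3, e4, e5, e6, e7, e8, e9, e10, e11, si_0, si_1, si_2, si_3, si_4, si_5,
      si_6, si_7, si_8, si_9, si_10, si_11] <;> ring

lemma co_sub (k l : ZMod 12) : co (k - l) = co k * co l + si k * si l := by
  rw [sub_eq_add_neg, co_add, co_neg, si_neg]; ring

lemma si_sub (k l : ZMod 12) : si (k - l) = si k * co l - co k * si l := by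
  rw [sub_eq_add_neg, si_add, co_neg, si_neg]; ring

lemma χ_ne_one : ∀ a : ZMod 12, a ≠ 0 → χ a ≠ 1 := by
  have h1 := s_lo
  have h2 := s_hi
  have key : ∀ a : ZMod 12, a ≠ 0 → co a ≠ 1 := by
    apply zcases <;> intro h <;>
      simp only [ne_eq, not_true_eq_false, co_0, co_1, co_2, co_3, co_4, co_5,
      co_6, co_7, co_8, co_9, co_10, co_11] at h ⊢ <;> intro h3 <;> linarith
  intro a ha h
  exact key a ha (by rw [← χ_re, h, Complex.one_re])

lemma sum_χ (a : ZMod 12) : ∑ k : ZMod 12, χ (a * k) = if a = 0 then 12 else 0 := by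
  split_ifs with h
  · subst h; simp [ZMod.card]
  · have h1 : ∑ k : ZMod 12, χ (a * k) = χ a * ∑ k : ZMod 12, χ (a * k) := by
      rw [Finset.mul_sum]
      rw [← Equiv.sum_comp (Equiv.addRight (1 : ZMod 12))]
      apply Finset.sum_congr rfl
      intro k _
      rw [Equiv.coe_addRight, mul_add, mul_one, χ_add, mul_comm]
    have h2 : (χ a - 1) * ∑ k : ZMod 12, χ (a * k) = 0 := by
      rw [sub_mul, ← h1, one_mul, sub_self]
    rcases mul_eq_zero.mp h2 with h3 | h3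
    · exact absurd (sub_eq_zero.mp h3) (χ_ne_one a h)
    · exact h3

lemma sum_co (a : ZMod 12) : ∑ k : ZMod 12, co (a * k) = if a = 0 then 12 else 0 := by
  have := congrArg Complex.re (sum_χ a)
  rw [Complex.re_sum] at this
  simp only [χ_re] at this
  rw [this]; split_ifs <;> simp

lemma sum_si (a : ZMod 12) : ∑ k : ZMod 12, si (a * k) = 0 := by
  have := congrArg Complex.im (sum_χ a)
  rw [Complex.im_sum] at this
  simp only [χ_im] at this
  rw [this]; split_ifs <;> simp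

lemma sum_co_co (m n : ZMod 12) : ∑ k : ZMod 12, co (m * k) * co (n * k) =
    ((if m - n = 0 then 12 else 0) + (if m + n = 0 then 12 else 0)) / 2 := by
  rw [← sum_co, ← sum_co, ← Finset.sum_add_distrib, Finset.sum_div]
  apply Finset.sum_congr rfl; intro k _
  rw [sub_mul, add_mul, co_sub, co_add]; ring

lemma sum_si_si (m n : ZMod 12) : ∑ k : ZMod 12, si (m * k) * si (n * k) =
    ((if m - n = 0 then 12 else 0) - (if m + n = 0 then 12 else 0)) / 2 := by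
  rw [← sum_co, ← sum_co, ← Finset.sum_sub_distrib, Finset.sum_div]
  apply Finset.sum_congr rfl; intro k _
  rw [sub_mul, add_mul, co_sub, co_add]; ring

lemma sum_si_co (m n : ZMod 12) : ∑ k : ZMod 12, si (m * k) * co (n * k) = 0 := by
  have : ∀ k, si (m * k) * co (n * k) = (si ((m + n) * k) + si ((m - n) * k)) / 2 := by
    intro k; rw [sub_mul, add_mul, si_sub, si_add]; ring
  simp only [this]
  rw [← Finset.sum_div, Finset.sum_add_distrib, sum_si, sum_si]; simp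

lemma sum_co_si (m n : ZMod 12) : ∑ k : ZMod 12, co (m * k) * si (n * k) = 0 := by
  rw [← sum_si_co n m]
  apply Finset.sum_congr rfl; intro k _; ring

end

end H16Jam
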