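import Pool.Agent.H16R3.Jam.Basic

set_option autoImplicit false

namespace H16Jam

open scoped BigOperators RealInnerProductSpace
open Filter Topology

variable {ι : Type*} [Fintype ι] {E : Type*} [NormedAddCommGroup E] [InnerProductSpace ℝ E]
  [FiniteDimensional ℝ E]

/-- Second-order sufficient condition for jammedness. -/
theorem jammed_of_second_order [Nonempty ι]
    (x : ι → E) (c : ℝ) (Ω : ι → ι → ℝ)
    (hx : ∀ i, ‖x i‖ = 1)
    (hsym : ∀ i j, Ω i j = Ω j i)
    (hpos : ∀ i j, i ≠ j → 0 ≤ Ω i j)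
    (heq : ∀ i, ∑ j, Ω i j • x j = 0)
    (hc : ∀ i j, i ≠ j → 0 < Ω i j → ⟪x i, x j⟫ = c)
    (hflex : ∀ v : ι → E, (∀ i, ⟪x i, v i⟫ = 0) →
      (∀ i j, i ≠ j → 0 < Ω i j → ⟪x i, v j⟫ + ⟪v i, x j⟫ = 0) →
      ∑ i, ∑ j, Ω i j * ⟪v i, v j⟫ ≤ 0 →
      ∃ A : E →ₗ[ℝ] E, (∀ u w, ⟪A u, w⟫ = -⟪u, A w⟫) ∧ ∀ i, v i = A (x i)) :
    ∃ ε : ℝ, 0 < ε ∧ ∀ y : ι → E, (∀ i, ‖y i‖ = 1) → (∀ i, dist (y i) (x i) < ε) →
      (∀ i j, i ≠ j → ⟪y i, y j⟫ ≤ c) → ∃ g : E ≃ₗᵢ[ℝ] E, ∀ i, y i = g (x i) := by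
  classical
  by_contra hcon
  push Not at hcon
  have hex : ∀ n : ℕ, ∃ y : ι → E, (∀ i, ‖y i‖ = 1) ∧ (∀ i, dist (y i) (x i) < 1 / ((n : ℝ) + 1)) ∧
      (∀ i j, i ≠ j → ⟪y i, y j⟫ ≤ c) ∧ ∀ g : E ≃ₗᵢ[ℝ] E, ∃ i, y i ≠ g (x i) := fun n =>
    hcon _ (by positivity)
  choose y hy1 hyd hyc hyg using hex
  -- minimising isometries
  have hmin : ∀ n, ∃ g ∈ isoSet E, ∀ g' ∈ isoSet E,
      ‖(fun i => g (y n i) - x i : ι → E)‖ ≤ ‖(fun i => g' (y n i) - x i : ι → E)‖ := by
    intro n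
    have hcont : Continuous (fun g : E →L[ℝ] E => ‖(fun i => g (y n i) - x i : ι → E)‖) := by
      apply Continuous.norm
      apply continuous_pi
      intro i
      exact ((ContinuousLinearMap.apply ℝ E (y n i)).continuous).sub continuous_const
    obtain ⟨g, hg, hgm⟩ := isoSet_compact.exists_isMinOn (s := isoSet E)
      ⟨ContinuousLinearMap.id ℝ E, fun w => rfl⟩ hcont.continuousOn
    exact ⟨g, hg, fun g' hg' => hgm hg'⟩
  choose g hgK hgm using hmin
  set z : ℕ → ι → E := fun n i => g n (y n i) with hz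
  set t : ℕ → ℝ := fun n => ‖z n - x‖ with ht
  have htle : ∀ n, t n ≤ 1 / ((n : ℝ) + 1) := by
    intro n
    have h1 := hgm n (ContinuousLinearMap.id ℝ E) (fun w => rfl)
    refine le_trans h1 ?_
    rw [pi_norm_le_iff_of_nonneg (by positivity)]
    intro i
    have := hyd n i
    rw [dist_eq_norm] at this
    exact this.le
  have htpos : ∀ n, 0 < t n := by
    intro n
    rcases (norm_nonneg (z n - x)).lt_or_eq with h | h
    · exact h
    · exfalso
      have h0 : z n = x := by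
        have := norm_eq_zero.mp h.symm
        exact sub_eq_zero.mp this
      set li : E →ₗᵢ[ℝ] E := ⟨(g n).toLinearMap, hgK n⟩ with hli
      set le : E ≃ₗᵢ[ℝ] E := li.toLinearIsometryEquiv rfl with hle
      obtain ⟨i, hi⟩ := hyg n le.symm
      apply hi
      rw [LinearIsometryEquiv.eq_symm_apply]
      have h1 : le (y n i) = g n (y n i) := by
        simp [hle, hli]
      rw [h1]
      exact congrFun h0 i
  have htlim : Tendsto t atTop (𝓝 0) := by
    apply squeeze_zero (fun n => (htpos n).le) htle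
    exact tendsto_one_div_add_atTop_nhds_zero_nat
  set u : ℕ → ι → E := fun n => (t n)⁻¹ • (z n - x) with hu
  have hun : ∀ n, u n ∈ Metric.sphere (0 : ι → E) 1 := by
    intro n
    rw [mem_sphere_zero_iff_norm, hu]
    simp only [norm_smul, norm_inv, Real.norm_eq_abs, abs_of_pos (htpos n)]
    exact inv_mul_cancel₀ (htpos n).ne'
  have : ProperSpace (ι → E) := inferInstance
  obtain ⟨v, -, φ, hφ, hlim⟩ := (isCompact_sphere (0 : ι → E) 1).tendsto_subseq hun
  have hzx : ∀ n i, z n i = x i + t n • u n i := by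
    intro n i
    simp only [hu, Pi.smul_apply, Pi.sub_apply]
    rw [smul_smul, mul_inv_cancel₀ (htpos n).ne', one_smul]
    abel
  have hz1 : ∀ n i, ‖z n i‖ = 1 := fun n i => by
    simp only [hz]; rw [hgK n, hy1]
  have hzc : ∀ n i j, i ≠ j → ⟪z n i, z n j⟫ ≤ c := fun n i j hij => by
    simp only [hz]; rw [isoSet_inner (hgK n)]; exact hyc n i j hij
  have hlimi : ∀ i, Tendsto (fun n => u (φ n) i) atTop (𝓝 (v i)) := fun i =>
    (tendsto_pi_nhds.mp hlim) i
  have htφ : Tendsto (fun n => t (φ n)) atTop (𝓝 0) := htlim.comp hφ.tendsto_atTop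
  have hF1 : ∀ n i, ⟪x i, u n i⟫ + t n / 2 * ⟪u n i, u n i⟫ = 0 := by
    intro n i
    have h1 : ⟪z n i, z n i⟫ = 1 := by rw [real_inner_self_eq_norm_sq, hz1]; norm_num
    rw [hzx, inner_add_left, inner_add_right, inner_add_right, inner_smul_left, inner_smul_right,
      inner_smul_left, inner_smul_right, real_inner_self_eq_norm_sq (x i), hx] at h1
    simp only [RCLike.conj_to_real] at h1
    rw [real_inner_comm (x i) (u n i)] at h1
    have h2 : t n * (⟪x i, u n i⟫ + t n / 2 * ⟪u n i, u n i⟫) = 0 := by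
      have := real_inner_comm (x i) (u n i)
      nlinarith
    rcases mul_eq_zero.mp h2 with h | h
    · exact absurd h (htpos n).ne'
    · exact h
  have hv1 : ∀ i, ⟪x i, v i⟫ = 0 := by
    intro i
    have h1 : Tendsto (fun n => ⟪x i, u (φ n) i⟫ + t (φ n) / 2 * ⟪u (φ n) i, u (φ n) i⟫) atTop
        (𝓝 (⟪x i, v i⟫ + 0 / 2 * ⟪v i, v i⟫)) := by
      apply Tendsto.add
      · exact (tendsto_const_nhds).inner (hlimi i)
      · exact (htφ.div_const 2).mul ((hlimi i).inner (hlimi i))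
    have h2 : Tendsto (fun n => ⟪x i, u (φ n) i⟫ + t (φ n) / 2 * ⟪u (φ n) i, u (φ n) i⟫) atTop
        (𝓝 0) := by
      simp only [hF1]; exact tendsto_const_nhds
    have h3 := tendsto_nhds_unique h1 h2
    simpa using h3
  have hF2 : ∀ n i j, i ≠ j → ⟪x i, x j⟫ = c →
      ⟪x i, u n j⟫ + ⟪u n i, x j⟫ + t n * ⟪u n i, u n j⟫ ≤ 0 := by
    intro n i j hij hcij
    have h1 := hzc n i j hij
    rw [hzx, hzx, inner_add_left, inner_add_right, inner_add_right, inner_smul_left,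
      inner_smul_right, inner_smul_left, inner_smul_right, hcij] at h1
    simp only [RCLike.conj_to_real] at h1
    have h2 : t n * (⟪x i, u n j⟫ + ⟪u n i, x j⟫ + t n * ⟪u n i, u n j⟫) ≤ 0 := by nlinarith
    by_contra h3
    push Not at h3
    have := mul_pos (htpos n) h3
    linarith
  have hv2 : ∀ i j, i ≠ j → ⟪x i, x j⟫ = c → ⟪x i, v j⟫ + ⟪v i, x j⟫ ≤ 0 := by
    intro i j hij hcij
    have h1 : Tendsto (fun n => ⟪x i, u (φ n) j⟫ + ⟪u (φ n) i, x j⟫ +
        t (φ n) * ⟪u (φ n) i, u (φ n) j⟫) atTop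
        (𝓝 (⟪x i, v j⟫ + ⟪v i, x j⟫ + 0 * ⟪v i, v j⟫)) := by
      apply Tendsto.add
      · apply Tendsto.add
        · exact (tendsto_const_nhds).inner (hlimi j)
        · exact (hlimi i).inner (tendsto_const_nhds)
      · exact htφ.mul ((hlimi i).inner (hlimi j))
    have h2 := le_of_tendsto' h1 (fun n => hF2 (φ n) i j hij hcij)
    simpa using h2
  have hΩx : ∀ w : ι → E, ∑ i, ∑ j, Ω i j * ⟪w i, x j⟫ = 0 := by
    intro w
    apply Finset.sum_eq_zero
    intro i _
    have : ∑ j, Ω i j * ⟪w i, x j⟫ = ⟪w i, ∑ j, Ω i j • x j⟫ := by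
      rw [inner_sum]
      apply Finset.sum_congr rfl
      intro j _
      rw [inner_smul_right]
    rw [this, heq, inner_zero_right]
  have hΩx' : ∀ w : ι → E, ∑ i, ∑ j, Ω i j * ⟪x i, w j⟫ = 0 := by
    intro w
    rw [Finset.sum_comm, ← hΩx w]
    apply Finset.sum_congr rfl; intro i _
    apply Finset.sum_congr rfl; intro j _
    rw [hsym, real_inner_comm]
  have hv3 : ∀ i j, i ≠ j → 0 < Ω i j → ⟪x i, v j⟫ + ⟪v i, x j⟫ = 0 := by
    have hsum : ∑ i, ∑ j, Ω i j * (⟪x i, v j⟫ + ⟪v i, x j⟫) = 0 := by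
      have : ∀ i j, Ω i j * (⟪x i, v j⟫ + ⟪v i, x j⟫) = Ω i j * ⟪x i, v j⟫ + Ω i j * ⟪v i, x j⟫ :=
        fun i j => by ring
      simp only [this, Finset.sum_add_distrib, hΩx, hΩx', add_zero]
    have hnp : ∀ i j, Ω i j * (⟪x i, v j⟫ + ⟪v i, x j⟫) ≤ 0 := by
      intro i j
      by_cases hij : i = j
      · subst hij
        have : ⟪v i, x i⟫ = 0 := by rw [real_inner_comm]; exact hv1 i
        rw [hv1, this]; simp
      · rcases (hpos i j hij).lt_or_eq with h | h
        · have := hv2 i j hij (hc i j hij h)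
          nlinarith
        · rw [← h]; simp
    intro i j hij hΩ
    have h1 := (Finset.sum_eq_zero_iff_of_nonpos (fun i _ =>
      Finset.sum_nonpos (fun j _ => hnp i j))).mp hsum i (Finset.mem_univ i)
    have h2 := (Finset.sum_eq_zero_iff_of_nonpos (fun j _ => hnp i j)).mp h1 j (Finset.mem_univ j)
    rcases mul_eq_zero.mp h2 with h | h
    · exact absurd h hΩ.ne'
    · exact h
  have hF3 : ∀ n, ∑ i, ∑ j, Ω i j * ⟪u n i, u n j⟫ ≤ 0 := by
    intro n
    have h1 : ∑ i, ∑ j, Ω i j * ⟪z n i, z n j⟫ ≤ ∑ i, ∑ j, Ω i j * ⟪x i, x j⟫ := by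
      apply Finset.sum_le_sum; intro i _
      apply Finset.sum_le_sum; intro j _
      by_cases hij : i = j
      · subst hij
        rw [real_inner_self_eq_norm_sq, real_inner_self_eq_norm_sq, hz1, hx]
      · rcases (hpos i j hij).lt_or_eq with h | h
        · rw [hc i j hij h]
          exact mul_le_mul_of_nonneg_left (hzc n i j hij) h.le
        · rw [← h]; simp
    rw [hΩx] at h1
    have h2 : ∑ i, ∑ j, Ω i j * ⟪z n i, z n j⟫ = (t n) ^ 2 * ∑ i, ∑ j, Ω i j * ⟪u n i, u n j⟫ := by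
      have h3 : ∀ i j, Ω i j * ⟪z n i, z n j⟫ = Ω i j * ⟪x i, x j⟫ + t n * (Ω i j * ⟪x i, u n j⟫) +
          t n * (Ω i j * ⟪u n i, x j⟫) + (t n) ^ 2 * (Ω i j * ⟪u n i, u n j⟫) := by
        intro i j
        rw [hzx, hzx, inner_add_left, inner_add_right, inner_add_right, inner_smul_left,
          inner_smul_right, inner_smul_left, inner_smul_right]
        simp only [RCLike.conj_to_real]
        ring
      simp only [h3, Finset.sum_add_distrib, ← Finset.mul_sum]
      rw [hΩx x, hΩx' (u n), hΩx (u n)]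
      ring
    rw [h2] at h1
    have h4 : 0 < (t n) ^ 2 := pow_pos (htpos n) 2
    by_contra h5
    push Not at h5
    have := mul_pos h4 h5
    linarith
  have hv4 : ∑ i, ∑ j, Ω i j * ⟪v i, v j⟫ ≤ 0 := by
    have h1 : Tendsto (fun n => ∑ i, ∑ j, Ω i j * ⟪u (φ n) i, u (φ n) j⟫) atTop
        (𝓝 (∑ i, ∑ j, Ω i j * ⟪v i, v j⟫)) := by
      apply tendsto_finsetSum; intro i _
      apply tendsto_finsetSum; intro j _
      exact ((hlimi i).inner (hlimi j)).const_mul _
    exact le_of_tendsto' h1 (fun n => hF3 (φ n))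
  obtain ⟨A, hA, hvA⟩ := hflex v hv1 hv3 hv4
  obtain ⟨C, hC0, hCA, hcay⟩ := cayley A hA
  have hfin : ∀ n, t n ≤ t n * ‖u n - v‖ + (t n) ^ 2 * (C + C ^ 2) := by
    intro n
    obtain ⟨g', hg', hg'e⟩ := hcay (t n)
    have hmem : g'.comp (g n) ∈ isoSet E := by
      intro w
      rw [ContinuousLinearMap.comp_apply, hg', hgK n]
    have h1 := hgm n _ hmem
    refine le_trans h1 ?_
    have hnn : 0 ≤ t n * ‖u n - v‖ + (t n) ^ 2 * (C + C ^ 2) := by
      have := (htpos n).le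
      positivity
    rw [pi_norm_le_iff_of_nonneg hnn]
    intro i
    rw [ContinuousLinearMap.comp_apply]
    have h2 : g' (g n (y n i)) - x i = t n • ((u n - v) i) - (t n) ^ 2 • A (u n i) +
        (g' (z n i) - z n i + t n • A (z n i)) := by
      have e1 : g n (y n i) = z n i := rfl
      rw [e1]
      have e2 : A (z n i) = A (x i) + t n • A (u n i) := by
        rw [hzx n i, map_add, map_smul]
      rw [e2, Pi.sub_apply, hvA i]
      nth_rewrite 3 [hzx n i]
      module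
    rw [h2]
    have h3 : ‖t n • ((u n - v) i)‖ ≤ t n * ‖u n - v‖ := by
      rw [norm_smul, Real.norm_eq_abs, abs_of_pos (htpos n)]
      exact mul_le_mul_of_nonneg_left (norm_le_pi_norm _ i) (htpos n).le
    have hui : ‖u n i‖ ≤ 1 := by
      have := norm_le_pi_norm (u n) i
      have h4 := hun n
      rw [mem_sphere_zero_iff_norm] at h4
      rw [h4] at this
      exact this
    have h4 : ‖(t n) ^ 2 • A (u n i)‖ ≤ (t n) ^ 2 * C := by
      rw [norm_smul, Real.norm_eq_abs, abs_of_nonneg (sq_nonneg _)]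
      apply mul_le_mul_of_nonneg_left _ (sq_nonneg _)
      calc ‖A (u n i)‖ ≤ C * ‖u n i‖ := hCA _
        _ ≤ C * 1 := mul_le_mul_of_nonneg_left hui hC0
        _ = C := mul_one _
    have h5 : ‖g' (z n i) - z n i + t n • A (z n i)‖ ≤ (t n) ^ 2 * C ^ 2 := by
      have := hg'e (z n i)
      rw [hz1, mul_one] at this
      exact this
    calc ‖t n • ((u n - v) i) - (t n) ^ 2 • A (u n i) + (g' (z n i) - z n i + t n • A (z n i))‖
        ≤ ‖t n • ((u n - v) i) - (t n) ^ 2 • A (u n i)‖ +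
          ‖g' (z n i) - z n i + t n • A (z n i)‖ := norm_add_le _ _
      _ ≤ (‖t n • ((u n - v) i)‖ + ‖(t n) ^ 2 • A (u n i)‖) +
          ‖g' (z n i) - z n i + t n • A (z n i)‖ := by
            have := norm_sub_le (t n • ((u n - v) i)) ((t n) ^ 2 • A (u n i))
            linarith
      _ ≤ t n * ‖u n - v‖ + (t n) ^ 2 * (C + C ^ 2) := by linarith
  have hfin2 : ∀ n, 1 ≤ ‖u n - v‖ + t n * (C + C ^ 2) := by
    intro n
    have h1 := hfin n
    have h2 : t n * 1 ≤ t n * (‖u n - v‖ + t n * (C + C ^ 2)) := by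
      rw [mul_one]
      calc t n ≤ t n * ‖u n - v‖ + (t n) ^ 2 * (C + C ^ 2) := h1
        _ = t n * (‖u n - v‖ + t n * (C + C ^ 2)) := by ring
    exact le_of_mul_le_mul_left h2 (htpos n)
  have hlimf : Tendsto (fun n => ‖u (φ n) - v‖ + t (φ n) * (C + C ^ 2)) atTop
      (𝓝 (0 + 0 * (C + C ^ 2))) := by
    apply Tendsto.add
    · have h1 := (hlim.sub_const v).norm
      simpa using h1
    · exact htφ.mul_const _
  have := ge_of_tendsto' hlimf (fun n => hfin2 (φ n))
  norm_num at this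

end H16Jam
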