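import Pool.Agent.H16R3.Jam.Chars
import Pool.Agent.H16R3.Jam.Second

set_option autoImplicit false

namespace H16Jam

open scoped BigOperators RealInnerProductSpace

noncomputable section

/-- `ρ² = (√3 - 1)/2` -/
def ρ : ℝ := Real.sqrt ((s - 1) / 2)
/-- `σ² = 1 - 1/√3` -/
def σ : ℝ := Real.sqrt (1 - s / 3)

lemma ρ_sq : ρ * ρ = (s - 1) / 2 := Real.mul_self_sqrt (by have := s_lo; linarith)
lemma σ_sq : σ * σ = 1 - s / 3 := Real.mul_self_sqrt (by have := s_hi; linarith)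
lemma ρ_pos : 0 < ρ := Real.sqrt_pos.mpr (by have := s_lo; linarith)
lemma σ_pos : 0 < σ := Real.sqrt_pos.mpr (by have := s_hi; linarith)
lemma ρ_lo : 0.60499 < ρ := by
  have := ρ_sq; have := ρ_pos; have := s_lo; nlinarith
lemma ρ_hi : ρ < 0.60502 := by
  have := ρ_sq; have := ρ_pos; have := s_hi; nlinarith
lemma σ_lo : 0.6501 < σ := by
  have := σ_sq; have := σ_pos; have := s_hi; nlinarith
lemma σ_hi : σ < 0.65013 := by
  have := σ_sq; have := σ_pos; have := s_lo; nlinarith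

/-- `1 + ρ + σ` -/
def Nn : ℝ := 1 + ρ + σ

lemma Nn_lo : 2.25509 < Nn := by unfold Nn; linarith [ρ_lo, σ_lo]
lemma Nn_hi : Nn < 2.25515 := by unfold Nn; linarith [ρ_hi, σ_hi]

def γ : ℝ := 2 * s / Nn

lemma γ_mul : γ * Nn = 2 * s := by
  unfold γ; rw [div_mul_cancel₀]; have := Nn_lo; linarith

lemma γ_lb : 1.5360 < γ := by
  unfold γ; rw [lt_div_iff₀ (by linarith [Nn_lo])]
  linarith [Nn_hi, s_lo]

lemma γ_ub : γ < 1.5362 := by
  unfold γ; rw [div_lt_iff₀ (by linarith [Nn_lo])]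
  linarith [Nn_lo, s_hi]

/-- the contact inner product -/
def cc : ℝ := γ / (12 * Nn - 6 * γ)
def ee : ℝ := 1 - cc

lemma cc_den : 0 < 12 * Nn - 6 * γ := by linarith [Nn_lo, γ_ub]

lemma cc_mul : cc * (12 * Nn - 6 * γ) = γ := by
  unfold cc; rw [div_mul_cancel₀]; exact cc_den.ne'

lemma cc_lo : 0.086 < cc := by
  unfold cc; rw [lt_div_iff₀ cc_den]; linarith [Nn_hi, γ_lb]

lemma cc_hi : cc < 0.0862 := by
  unfold cc; rw [div_lt_iff₀ cc_den]; linarith [Nn_lo, γ_ub]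

lemma ee_lo : 0.9138 < ee := by unfold ee; linarith [cc_hi]
lemma ee_hi : ee < 0.914 := by unfold ee; linarith [cc_lo]

def al : ℝ := 4 * ρ - γ
def be : ℝ := 3 * σ - γ
def mu : ℝ := -(ρ + σ) + 7 * γ / 12

/-- key identity of the constant mode -/
lemma mode0 : (cc + ee / 7) * mu = cc - ee * (ρ + σ) / 7 := by
  have h := cc_mul
  unfold mu ee
  unfold Nn at h
  nlinarith

lemma mode0sq : 7 * ee / 12 * ((3 * σ - 4 * ρ) / 7) ^ 2 + (cc + ee / 7) * mu ^ 2 =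
    cc - ee * (s - 1) / 12 := by
  have h1 := mode0
  have h2 := ρ_sq
  have h3 := σ_sq
  have h4 := γ_mul
  have e1 : (cc + ee / 7) * mu ^ 2 = (cc - ee * (ρ + σ) / 7) * mu := by rw [← h1]; ring
  rw [e1]
  have e2 : ee = 1 - cc := rfl
  have h5 := cc_mul
  have e3 : Nn = 1 + ρ + σ := rfl
  rw [e2]
  unfold mu
  rw [e3] at h4 h5
  linear_combination ((1 - cc) / 4) * h3 + ((1 - cc) / 3) * h2 - ((1 - cc) / 12) * h4 - (1 / 12) * h5

/-- index type of the code -/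
abbrev Idx := ZMod 12 ⊕ (ZMod 3 ⊕ ZMod 4)

def e3 (i : ZMod 3) : ZMod 12 := (i.val : ZMod 12)
def e4 (j : ZMod 4) : ZMod 12 := (j.val : ZMod 12)

def wt : Fin 10 → ℝ := ![ee * (1 - s / 3), ee * (1 - s / 3), ee / 2, ee / 2, 2 * ee / 3, 2 * ee / 3,
  ee / 4, ee * (2 * s - 3) / 6, 7 * ee / 12, cc + ee / 7]

lemma wt_nonneg : ∀ a, 0 ≤ wt a := by
  have h1 := ee_lo; have h2 := cc_lo; have h3 := s_lo; have h4 := s_hi
  intro a
  fin_cases a <;> simp [wt] <;> nlinarith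

/-- vector with weighted coordinates -/
def vec (p : Fin 10 → ℝ) : EuclideanSpace ℝ (Fin 10) :=
  WithLp.toLp 2 (fun a => Real.sqrt (wt a) * p a)

lemma inner_vec (p q : Fin 10 → ℝ) : ⟪vec p, vec q⟫ = ∑ a, wt a * (p a * q a) := by
  simp only [vec, PiLp.inner_apply, RCLike.inner_apply, conj_trivial]
  apply Finset.sum_congr rfl
  intro a _
  have := Real.mul_self_sqrt (wt_nonneg a)
  calc Real.sqrt (wt a) * q a * (Real.sqrt (wt a) * p a)
      = (Real.sqrt (wt a) * Real.sqrt (wt a)) * (p a * q a) := by ring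
    _ = _ := by rw [this]

def TW (k : ZMod 12) : Fin 10 → ℝ := ![co (5 * k), si (5 * k), σ * co (3 * k), σ * si (3 * k),
  ρ * co (4 * k), ρ * si (4 * k), -(σ * co (6 * k)), co (6 * k), (3 * σ - 4 * ρ) / 7, mu]
def TR (i : ZMod 3) : Fin 10 → ℝ := ![0, 0, 0, 0, -co (4 * e3 i), -si (4 * e3 i), 0, 0, 4 / 7, 1]
def TS (j : ZMod 4) : Fin 10 → ℝ := ![0, 0, -co (3 * e4 j), -si (3 * e4 j), 0, 0, co (6 * e4 j), 0,
  -3 / 7, 1]

/-- coordinates of the code -/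
def TT : Idx → Fin 10 → ℝ
  | Sum.inl k => TW k
  | Sum.inr (Sum.inl i) => TR i
  | Sum.inr (Sum.inr j) => TS j

/-- the code -/
def xx (i : Idx) : EuclideanSpace ℝ (Fin 10) := vec (TT i)

lemma sum10 (f : Fin 10 → ℝ) : ∑ a, f a = f 0 + f 1 + f 2 + f 3 + f 4 + f 5 + f 6 + f 7 + f 8 + f 9 := by
  simp only [Fin.sum_univ_succ, Fin.sum_univ_zero]
  simp
  ring

lemma co_ms (a k l : ZMod 12) : co (a * (k - l)) = co (a * k) * co (a * l) + si (a * k) * si (a * l) := by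
  rw [mul_sub, co_sub]

lemma si_six : ∀ k : ZMod 12, si (6 * k) = 0 := by
  intro k
  have : 6 * k = 0 ∨ 6 * k = 6 := by revert k; decide
  rcases this with h | h <;> rw [h] <;> simp

lemma ipWW (k l : ZMod 12) : ⟪xx (Sum.inl k), xx (Sum.inl l)⟫ =
    ee * (1 - s / 3) * co (5 * (k - l)) + ee / 2 * (1 - s / 3) * co (3 * (k - l)) +
    ee / 3 * (s - 1) * co (4 * (k - l)) + ee * (s - 1) / 4 * co (6 * (k - l)) +
    (cc - ee * (s - 1) / 12) := by
  have h1 := ρ_sq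
  have h2 := σ_sq
  have h3 := mode0sq
  rw [xx, xx, inner_vec, sum10]
  simp only [TT, TW, wt, Matrix.cons_val]
  simp only [co_ms, si_six]
  rw [← h3]
  have e1 : ee / 2 * (1 - s / 3) = ee / 2 * (σ * σ) := by rw [h2]
  have e2 : ee / 3 * (s - 1) = 2 * ee / 3 * (ρ * ρ) := by rw [h1]; ring
  have e3 : ee * (s - 1) / 4 = ee / 4 * (σ * σ) + ee * (2 * s - 3) / 6 := by rw [h2]; ring
  rw [e1, e2, e3]
  ring

lemma ipWR (k : ZMod 12) (i : ZMod 3) : ⟪xx (Sum.inl k), xx (Sum.inr (Sum.inl i))⟫ =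
    cc - ee * ρ / 3 * (1 + 2 * co (4 * (k - e3 i))) := by
  have h3 := mode0
  rw [xx, xx, inner_vec, sum10]
  simp only [TT, TW, TR, wt, Matrix.cons_val]
  simp only [co_ms]
  linear_combination h3

lemma ipWS (k : ZMod 12) (j : ZMod 4) : ⟪xx (Sum.inl k), xx (Sum.inr (Sum.inr j))⟫ =
    cc - ee * σ / 4 * (1 + 2 * co (3 * (k - e4 j)) + co (6 * (k - e4 j))) := by
  have h3 := mode0
  rw [xx, xx, inner_vec, sum10]
  simp only [TT, TW, TS, wt, Matrix.cons_val]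
  simp only [co_ms, si_six]
  linear_combination h3

lemma ipRR (i l : ZMod 3) : ⟪xx (Sum.inr (Sum.inl i)), xx (Sum.inr (Sum.inl l))⟫ =
    cc + ee / 3 * (1 + 2 * co (4 * (e3 i - e3 l))) := by
  rw [xx, xx, inner_vec, sum10]
  simp only [TT, TR, wt, Matrix.cons_val]
  simp only [co_ms]
  ring

lemma ipSS (i l : ZMod 4) : ⟪xx (Sum.inr (Sum.inr i)), xx (Sum.inr (Sum.inr l))⟫ =
    cc + ee / 4 * (1 + 2 * co (3 * (e4 i - e4 l)) + co (6 * (e4 i - e4 l))) := by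
  rw [xx, xx, inner_vec, sum10]
  simp only [TT, TS, wt, Matrix.cons_val]
  simp only [co_ms, si_six]
  ring

lemma ipRS (i : ZMod 3) (l : ZMod 4) : ⟪xx (Sum.inr (Sum.inl i)), xx (Sum.inr (Sum.inr l))⟫ = cc := by
  rw [xx, xx, inner_vec, sum10]
  simp only [TT, TR, TS, wt, Matrix.cons_val]
  ring

end

end H16Jam
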