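import Pool.Agent.H16R3.Jam.Kernel

set_option autoImplicit false

namespace H16Jam

open scoped BigOperators RealInnerProductSpace

noncomputable section

def Rk (k : ZMod 12) : ZMod 3 := (k.val : ZMod 3)
def Sk (k : ZMod 12) : ZMod 4 := (k.val : ZMod 4)

/-- discrete Fourier transform -/
def ft (g : ZMod 12 → ℝ) (j : ZMod 12) : ℂ := ∑ k : ZMod 12, (g k : ℂ) * χ (j * k)

lemma χ_neg (k : ZMod 12) : χ (-k) = (starRingEnd ℂ) (χ k) := by
  apply Complex.ext
  · simp [co_neg]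
  · simp [si_neg]

lemma ft_neg (g : ZMod 12 → ℝ) (j : ZMod 12) : ft g (-j) = (starRingEnd ℂ) (ft g j) := by
  unfold ft
  rw [map_sum]
  apply Finset.sum_congr rfl; intro k _
  rw [map_mul, Complex.conj_ofReal, ← χ_neg, neg_mul]

lemma ft_inv (g : ZMod 12 → ℝ) (k : ZMod 12) : ∑ j : ZMod 12, ft g j * χ (-(j * k)) = 12 * (g k : ℂ) := by
  unfold ft
  simp only [Finset.sum_mul]
  rw [Finset.sum_comm]
  have h1 : ∀ l : ZMod 12, ∑ j : ZMod 12, (g l : ℂ) * χ (j * l) * χ (-(j * k)) =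
      (g l : ℂ) * (if l - k = 0 then 12 else 0) := by
    intro l
    rw [← sum_χ, Finset.mul_sum]
    apply Finset.sum_congr rfl; intro j _
    rw [mul_assoc, ← χ_add]
    congr 2
    ring
  simp only [h1]
  rw [Finset.sum_eq_single k]
  · simp; ring
  · intro l _ hl
    rw [if_neg (sub_ne_zero.mpr hl), mul_zero]
  · intro h; exact absurd (Finset.mem_univ k) h

lemma ft_zero (g : ZMod 12 → ℝ) (h : ∀ j, ft g j = 0) : ∀ k, g k = 0 := by
  intro k
  have h1 := ft_inv g k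
  simp only [h, zero_mul, Finset.sum_const_zero] at h1
  have h2 : (g k : ℂ) = 0 := by
    have : (12 : ℂ) ≠ 0 := by norm_num
    rcases mul_eq_zero.mp h1.symm with h | h
    · exact absurd h this
    · exact h
  exact_mod_cast h2

lemma co_six_mul (k : ZMod 12) : (χ (6 * k)) = (co (6 * k) : ℂ) := by
  apply Complex.ext
  · simp
  · simp [si_six]

lemma ft_six (g : ZMod 12 → ℝ) (h : ∀ j, j ≠ 6 → ft g j = 0) : (∀ k, g k = g 0 * co (6 * k)) ∧
    ft g 6 = ((12 * g 0 : ℝ) : ℂ) := by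
  have h1 : ∀ k, ft g 6 * χ (-(6 * k)) = 12 * (g k : ℂ) := by
    intro k
    rw [← ft_inv g k, Finset.sum_eq_single 6]
    · intro j _ hj; rw [h j hj, zero_mul]
    · intro h; exact absurd (Finset.mem_univ _) h
  have h0 := h1 0
  rw [mul_zero, neg_zero, χ_zero, mul_one] at h0
  refine ⟨fun k => ?_, by rw [h0]; push_cast; ring⟩
  have h2 := h1 k
  rw [h0, χ_neg, co_six_mul, Complex.conj_ofReal] at h2
  have h3 : (g 0 : ℂ) * (co (6 * k) : ℂ) = (g k : ℂ) := by
    have : (12 : ℂ) ≠ 0 := by norm_num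
    apply mul_left_cancel₀ this
    rw [← h2]; ring
  exact_mod_cast h3.symm

/-- data of a symmetric matrix supported on the non-contacts -/
structure Supp (H : Idx → Idx → ℝ) : Prop where
  symm : ∀ i j, H i j = H j i
  ww : ∀ k t : ZMod 12, t ≠ 1 → t ≠ 11 → t ≠ 6 → H (Sum.inl k) (Sum.inl (k + t)) = 0
  wr : ∀ k i, i ≠ Rk k → H (Sum.inl k) (Sum.inr (Sum.inl i)) = 0
  ws : ∀ k j, j ≠ Sk k → H (Sum.inl k) (Sum.inr (Sum.inr j)) = 0
  rr : ∀ i j, H (Sum.inr (Sum.inl i)) (Sum.inr (Sum.inl j)) = 0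
  ss : ∀ i j, H (Sum.inr (Sum.inr i)) (Sum.inr (Sum.inr j)) = 0
  rs : ∀ i j, H (Sum.inr (Sum.inl i)) (Sum.inr (Sum.inr j)) = 0

def dd (H : Idx → Idx → ℝ) (k : ZMod 12) : ℝ := H (Sum.inl k) (Sum.inl (k + 1))
def ff (H : Idx → Idx → ℝ) (k : ZMod 12) : ℝ := H (Sum.inl k) (Sum.inl (k + 6))
def aa (H : Idx → Idx → ℝ) (k : ZMod 12) : ℝ := H (Sum.inl k) (Sum.inr (Sum.inl (Rk k)))
def bb (H : Idx → Idx → ℝ) (k : ZMod 12) : ℝ := H (Sum.inl k) (Sum.inr (Sum.inr (Sk k)))

/-- complex kernel vectors -/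
def cv (m : ZMod 12) (r q : ℝ) : Idx → ℂ
  | Sum.inl k => χ (m * k)
  | Sum.inr (Sum.inl i) => r * χ (m * e3 i)
  | Sum.inr (Sum.inr j) => q * χ (m * e4 j)

lemma sum12 (f : ZMod 12 → ℂ) : ∑ t, f t = f 0 + f 1 + f 2 + f 3 + f 4 + f 5 + f 6 + f 7 + f 8 +
    f 9 + f 10 + f 11 := by
  have h : ∑ t, f t = ∑ t : Fin 12, f t := rfl
  rw [h]
  simp only [Fin.sum_univ_succ, Fin.sum_univ_zero]
  simp
  ring_nf
  rfl

lemma bilsum (H : Idx → Idx → ℝ) (hH : Supp H) (m m' : ZMod 12) (r q r' q' : ℝ)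
    (h3 : ∀ k, (r : ℂ) * χ (m * e3 (Rk k)) = r * χ (m * k))
    (h4 : ∀ k, (q : ℂ) * χ (m * e4 (Sk k)) = q * χ (m * k))
    (h3' : ∀ k, (r' : ℂ) * χ (m' * e3 (Rk k)) = r' * χ (m' * k))
    (h4' : ∀ k, (q' : ℂ) * χ (m' * e4 (Sk k)) = q' * χ (m' * k)) :
    ∑ i, ∑ j, cv m r q i * cv m' r' q' j * (H i j : ℂ) =
    (χ m' + χ m) * ft (dd H) (m + m') + χ (6 * m') * ft (ff H) (m + m') +
    ((r : ℂ) + r') * ft (aa H) (m + m') + ((q : ℂ) + q') * ft (bb H) (m + m') := by
  -- W-W part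
  have hWW : ∑ k : ZMod 12, ∑ l : ZMod 12, χ (m * k) * χ (m' * l) * (H (Sum.inl k) (Sum.inl l) : ℂ) =
      (χ m' + χ m) * ft (dd H) (m + m') + χ (6 * m') * ft (ff H) (m + m') := by
    have h1 : ∀ k : ZMod 12, ∑ l : ZMod 12, χ (m * k) * χ (m' * l) * (H (Sum.inl k) (Sum.inl l) : ℂ) =
        χ m' * ((dd H k : ℂ) * χ ((m + m') * k)) + χ (6 * m') * ((ff H k : ℂ) * χ ((m + m') * k)) +
        χ m * ((dd H (k + 11) : ℂ) * χ ((m + m') * (k + 11))) := by
      intro k
      rw [← Equiv.sum_comp (Equiv.addLeft k)]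
      simp only [Equiv.coe_addLeft]
      rw [sum12]
      rw [hH.ww k 0 (by decide) (by decide) (by decide), hH.ww k 2 (by decide) (by decide) (by decide),
        hH.ww k 3 (by decide) (by decide) (by decide), hH.ww k 4 (by decide) (by decide) (by decide),
        hH.ww k 5 (by decide) (by decide) (by decide), hH.ww k 7 (by decide) (by decide) (by decide),
        hH.ww k 8 (by decide) (by decide) (by decide), hH.ww k 9 (by decide) (by decide) (by decide),
        hH.ww k 10 (by decide) (by decide) (by decide)]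
      have e1 : H (Sum.inl k) (Sum.inl (k + 11)) = dd H (k + 11) := by
        rw [dd, hH.symm]
        congr 2
        rw [add_assoc]
        have : (11 : ZMod 12) + 1 = 0 := by decide
        rw [this, add_zero]
      rw [e1]
      have e2 : χ (m' * (k + 1)) = χ (m' * k) * χ m' := by rw [mul_add, mul_one, χ_add]
      have e3 : χ (m' * (k + 6)) = χ (m' * k) * χ (6 * m') := by
        rw [mul_add, χ_add, mul_comm m' 6]
      have e4 : χ ((m + m') * k) = χ (m * k) * χ (m' * k) := by rw [add_mul, χ_add]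
      have e5 : χ ((m + m') * (k + 11)) = χ (m * (k + 11)) * χ (m' * (k + 11)) := by
        rw [add_mul, χ_add]
      have e6 : χ (m * k) = χ m * χ (m * (k + 11)) := by
        rw [← χ_add]
        congr 1
        have : (12 : ZMod 12) = 0 := by decide
        linear_combination (-m) * this
      rw [e2, e3, e4, e5]
      simp only [dd, ff]
      have e7 : χ (m * k) * χ (m' * (k + 11)) = χ m * (χ (m * (k + 11)) * χ (m' * (k + 11))) := by
        rw [e6]; ring
      rw [e7]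
      push_cast
      ring
    simp only [h1, Finset.sum_add_distrib, ← Finset.mul_sum]
    have h2 : ∑ k : ZMod 12, (dd H (k + 11) : ℂ) * χ ((m + m') * (k + 11)) = ft (dd H) (m + m') := by
      unfold ft
      exact Equiv.sum_comp (Equiv.addRight (11 : ZMod 12))
        (fun k => (dd H k : ℂ) * χ ((m + m') * k))
    rw [h2]
    unfold ft
    ring
  have hWR : ∑ k : ZMod 12, ∑ i : ZMod 3, χ (m * k) * ((r' : ℂ) * χ (m' * e3 i)) *
      (H (Sum.inl k) (Sum.inr (Sum.inl i)) : ℂ) = (r' : ℂ) * ft (aa H) (m + m') := by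
    unfold ft
    rw [Finset.mul_sum]
    apply Finset.sum_congr rfl; intro k _
    rw [Finset.sum_eq_single (Rk k)]
    · rw [h3', add_mul, χ_add]; simp only [aa]; ring
    · intro i _ hi; rw [hH.wr k i hi]; simp
    · intro h; exact absurd (Finset.mem_univ _) h
  have hWS : ∑ k : ZMod 12, ∑ i : ZMod 4, χ (m * k) * ((q' : ℂ) * χ (m' * e4 i)) *
      (H (Sum.inl k) (Sum.inr (Sum.inr i)) : ℂ) = (q' : ℂ) * ft (bb H) (m + m') := by
    unfold ft
    rw [Finset.mul_sum]
    apply Finset.sum_congr rfl; intro k _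
    rw [Finset.sum_eq_single (Sk k)]
    · rw [h4', add_mul, χ_add]; simp only [bb]; ring
    · intro i _ hi; rw [hH.ws k i hi]; simp
    · intro h; exact absurd (Finset.mem_univ _) h
  have hRW : ∑ i : ZMod 3, ∑ k : ZMod 12, (r : ℂ) * χ (m * e3 i) * χ (m' * k) *
      (H (Sum.inr (Sum.inl i)) (Sum.inl k) : ℂ) = (r : ℂ) * ft (aa H) (m + m') := by
    unfold ft
    rw [Finset.sum_comm, Finset.mul_sum]
    apply Finset.sum_congr rfl; intro k _
    rw [Finset.sum_eq_single (Rk k)]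
    · rw [h3, add_mul, χ_add, hH.symm]; simp only [aa]; ring
    · intro i _ hi; rw [hH.symm, hH.wr k i hi]; simp
    · intro h; exact absurd (Finset.mem_univ _) h
  have hSW : ∑ i : ZMod 4, ∑ k : ZMod 12, (q : ℂ) * χ (m * e4 i) * χ (m' * k) *
      (H (Sum.inr (Sum.inr i)) (Sum.inl k) : ℂ) = (q : ℂ) * ft (bb H) (m + m') := by
    unfold ft
    rw [Finset.sum_comm, Finset.mul_sum]
    apply Finset.sum_congr rfl; intro k _
    rw [Finset.sum_eq_single (Sk k)]
    · rw [h4, add_mul, χ_add, hH.symm]; simp only [bb]; ring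
    · intro i _ hi; rw [hH.symm, hH.ws k i hi]; simp
    · intro h; exact absurd (Finset.mem_univ _) h
  have hSR : ∀ i j, H (Sum.inr (Sum.inr i)) (Sum.inr (Sum.inl j)) = 0 := fun i j => by
    rw [hH.symm]; exact hH.rs j i
  simp only [Fintype.sum_sum_type, cv, hH.rr, hH.ss, hH.rs, hSR, Complex.ofReal_zero, mul_zero,
    Finset.sum_const_zero, add_zero, Finset.sum_add_distrib]
  rw [hWW, hWR, hWS, hRW, hSW]
  ring

end

end H16Jam
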