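import Pool.Agent.H16R3.Jam.Code

set_option autoImplicit false

namespace H16Jam

open scoped BigOperators RealInnerProductSpace

noncomputable section

lemma sum3 (f : ZMod 3 → ℝ) : ∑ i, f i = f 0 + f 1 + f 2 := Fin.sum_univ_three f
lemma sum4 (f : ZMod 4 → ℝ) : ∑ i, f i = f 0 + f 1 + f 2 + f 3 := Fin.sum_univ_four f

@[simp] lemma e3_0 : e3 0 = 0 := rfl
@[simp] lemma e3_1 : e3 1 = 1 := rfl
@[simp] lemma e3_2 : e3 2 = 2 := rfl
@[simp] lemma e4_0 : e4 0 = 0 := rfl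
@[simp] lemma e4_1 : e4 1 = 1 := rfl
@[simp] lemma e4_2 : e4 2 = 2 := rfl
@[simp] lemma e4_3 : e4 3 = 3 := rfl

/-- model kernel vectors -/
def kv (f : ZMod 12 → ℝ) (m : ZMod 12) (r q : ℝ) : Idx → ℝ
  | Sum.inl k => f (m * k)
  | Sum.inr (Sum.inl i) => r * f (m * e3 i)
  | Sum.inr (Sum.inr j) => q * f (m * e4 j)

lemma vecsum (κ : Idx → ℝ) (h : ∀ a, ∑ i, κ i * TT i a = 0) : ∑ i, κ i • xx i = 0 := by
  ext a
  rw [PiLp.zero_apply]
  have : (∑ i, κ i • xx i : EuclideanSpace ℝ (Fin 10)) a = ∑ i, κ i * (Real.sqrt (wt a) * TT i a) := by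
    simp [xx, vec]
  rw [this]
  have h2 : ∑ i, κ i * (Real.sqrt (wt a) * TT i a) = Real.sqrt (wt a) * ∑ i, κ i * TT i a := by
    rw [Finset.mul_sum]; apply Finset.sum_congr rfl; intro i _; ring
  rw [h2, h, mul_zero]

lemma sumk (κ : Idx → ℝ) (a : Fin 10) : ∑ i, κ i * TT i a =
    ∑ k, κ (Sum.inl k) * TW k a + ((κ (Sum.inr (Sum.inl 0)) * TR 0 a + κ (Sum.inr (Sum.inl 1)) * TR 1 a +
      κ (Sum.inr (Sum.inl 2)) * TR 2 a) + (κ (Sum.inr (Sum.inr 0)) * TS 0 a +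
      κ (Sum.inr (Sum.inr 1)) * TS 1 a + κ (Sum.inr (Sum.inr 2)) * TS 2 a +
      κ (Sum.inr (Sum.inr 3)) * TS 3 a)) := by
  rw [Fintype.sum_sum_type, Fintype.sum_sum_type, sum3, sum4]
  rfl

lemma sum_co_c (m : ZMod 12) (x : ℝ) : ∑ k : ZMod 12, co (m * k) * x = (if m = 0 then 12 else 0) * x := by
  rw [← Finset.sum_mul, sum_co]

lemma sum_si_c (m : ZMod 12) (x : ℝ) : ∑ k : ZMod 12, si (m * k) * x = 0 := by
  rw [← Finset.sum_mul, sum_si, zero_mul]

lemma sTWco (m : ZMod 12) (a : Fin 10) : ∑ k, co (m * k) * TW k a =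
    (![∑ k : ZMod 12, co (m * k) * co (5 * k), 0, σ * ∑ k : ZMod 12, co (m * k) * co (3 * k), 0,
      ρ * ∑ k : ZMod 12, co (m * k) * co (4 * k), 0, -(σ * ∑ k : ZMod 12, co (m * k) * co (6 * k)),
      ∑ k : ZMod 12, co (m * k) * co (6 * k), (if m = 0 then 12 else 0) * ((3 * σ - 4 * ρ) / 7),
      (if m = 0 then 12 else 0) * mu] : Fin 10 → ℝ) a := by
  have h1 := sum_co_si m 5
  have h2 := sum_co_si m 3
  have h3 := sum_co_si m 4
  fin_cases a
  · simp only [TW, Fin.zero_eta, Matrix.cons_val]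
  · simp only [TW, Fin.mk_one, Matrix.cons_val]; exact h1
  · simp only [TW, Fin.reduceFinMk, Matrix.cons_val]; rw [Finset.mul_sum]
    apply Finset.sum_congr rfl; intro k _; ring
  · simp only [TW, Fin.reduceFinMk, Matrix.cons_val]
    have : ∑ k : ZMod 12, co (m * k) * (σ * si (3 * k)) = σ * ∑ k : ZMod 12, co (m * k) * si (3 * k) := by
      rw [Finset.mul_sum]; apply Finset.sum_congr rfl; intro k _; ring
    rw [this, h2, mul_zero]
  · simp only [TW, Fin.reduceFinMk, Matrix.cons_val]; rw [Finset.mul_sum]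
    apply Finset.sum_congr rfl; intro k _; ring
  · simp only [TW, Fin.reduceFinMk, Matrix.cons_val]
    have : ∑ k : ZMod 12, co (m * k) * (ρ * si (4 * k)) = ρ * ∑ k : ZMod 12, co (m * k) * si (4 * k) := by
      rw [Finset.mul_sum]; apply Finset.sum_congr rfl; intro k _; ring
    rw [this, h3, mul_zero]
  · simp only [TW, Fin.reduceFinMk, Matrix.cons_val]; rw [Finset.mul_sum, ← Finset.sum_neg_distrib]
    apply Finset.sum_congr rfl; intro k _; ring
  · simp only [TW, Fin.reduceFinMk, Matrix.cons_val]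
  · simp only [TW, Fin.reduceFinMk, Matrix.cons_val]; exact sum_co_c _ _
  · simp only [TW, Fin.reduceFinMk, Matrix.cons_val]; exact sum_co_c _ _

lemma sTWsi (m : ZMod 12) (a : Fin 10) : ∑ k, si (m * k) * TW k a =
    (![0, ∑ k : ZMod 12, si (m * k) * si (5 * k), 0, σ * ∑ k : ZMod 12, si (m * k) * si (3 * k),
      0, ρ * ∑ k : ZMod 12, si (m * k) * si (4 * k), 0, 0, 0, 0] : Fin 10 → ℝ) a := by
  have h1 := sum_si_co m 5
  have h2 := sum_si_co m 3
  have h3 := sum_si_co m 4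
  have h4 := sum_si_co m 6
  fin_cases a
  · simp only [TW, Fin.zero_eta, Matrix.cons_val]; exact h1
  · simp only [TW, Fin.mk_one, Matrix.cons_val]
  · simp only [TW, Fin.reduceFinMk, Matrix.cons_val]
    have : ∑ k : ZMod 12, si (m * k) * (σ * co (3 * k)) = σ * ∑ k : ZMod 12, si (m * k) * co (3 * k) := by
      rw [Finset.mul_sum]; apply Finset.sum_congr rfl; intro k _; ring
    rw [this, h2, mul_zero]
  · simp only [TW, Fin.reduceFinMk, Matrix.cons_val]; rw [Finset.mul_sum]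
    apply Finset.sum_congr rfl; intro k _; ring
  · simp only [TW, Fin.reduceFinMk, Matrix.cons_val]
    have : ∑ k : ZMod 12, si (m * k) * (ρ * co (4 * k)) = ρ * ∑ k : ZMod 12, si (m * k) * co (4 * k) := by
      rw [Finset.mul_sum]; apply Finset.sum_congr rfl; intro k _; ring
    rw [this, h3, mul_zero]
  · simp only [TW, Fin.reduceFinMk, Matrix.cons_val]; rw [Finset.mul_sum]
    apply Finset.sum_congr rfl; intro k _; ring
  · simp only [TW, Fin.reduceFinMk, Matrix.cons_val]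
    have : ∑ k : ZMod 12, si (m * k) * -(σ * co (6 * k)) = -σ * ∑ k : ZMod 12, si (m * k) * co (6 * k) := by
      rw [Finset.mul_sum]; apply Finset.sum_congr rfl; intro k _; ring
    rw [this, h4, mul_zero]
  · simp only [TW, Fin.reduceFinMk, Matrix.cons_val]; exact h4
  · simp only [TW, Fin.reduceFinMk, Matrix.cons_val]; exact sum_si_c _ _
  · simp only [TW, Fin.reduceFinMk, Matrix.cons_val]; exact sum_si_c _ _

lemma evals : ((2 : ZMod 12) * 2 = 4) ∧ ((3 : ZMod 12) * 2 = 6) ∧ ((3 : ZMod 12) * 3 = 9) ∧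
    ((4 : ZMod 12) * 2 = 8) ∧ ((6 : ZMod 12) * 2 = 0) ∧ ((6 : ZMod 12) * 3 = 6) ∧
    ((2 : ZMod 12) * 3 = 6) ∧ ((4 : ZMod 12) * 3 = 0) ∧ ((5 : ZMod 12) * 2 = 10) := by decide

lemma ker0 : ∑ i, kv co 0 al be i • xx i = 0 := by
  obtain ⟨v1, v2, v3, v4, v5, v6, v7, v8, v9⟩ := evals
  apply vecsum
  intro a
  rw [sumk]
  simp only [kv, zero_mul, co_0, mul_one, mul_zero]
  have h := sTWco 0 a
  simp only [zero_mul, co_0] at h
  rw [h]
  have s5 := sum_co 5; have s3 := sum_co 3; have s4 := sum_co 4; have s6 := sum_co 6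
  rw [if_neg (by decide)] at s5 s3 s4 s6
  fin_cases a <;>
    simp only [TR, TS, Fin.zero_eta, Fin.mk_one, Fin.reduceFinMk, Matrix.cons_val, one_mul, e3_0, e3_1, e3_2,
      e4_0, e4_1, e4_2, e4_3, mul_zero, mul_one, v1, v2, v3, v4, v5, v6, v7, v8, v9, co_0, co_1, co_2, co_3,
      co_4, co_5, co_6, co_7, co_8, co_9, co_10, co_11, si_0, si_1, si_2, si_3, si_4, si_5, si_6, si_7, si_8,
      si_9, si_10, si_11, if_true, s5, s3, s4, s6] <;> (try simp only [al, be, mu]) <;> ring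

lemma kerC (m : ZMod 12) (r q : ℝ)
    (h : (m = 1 ∧ r = 0 ∧ q = 0) ∨ (m = 2 ∧ r = 0 ∧ q = 0) ∨ (m = 3 ∧ r = 0 ∧ q = 3 * σ) ∨
      (m = 4 ∧ r = 4 * ρ ∧ q = 0)) : ∑ i, kv co m r q i • xx i = 0 := by
  obtain ⟨v1, v2, v3, v4, v5, v6, v7, v8, v9⟩ := evals
  have d1 : ¬ ((1 : ZMod 12) = 0) := by decide
  have d2 : ¬ ((2 : ZMod 12) = 0) := by decide
  have d3 : ¬ ((3 : ZMod 12) = 0) := by decide
  have d4 : ¬ ((4 : ZMod 12) = 0) := by decide
  apply vecsum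
  intro a
  rw [sumk]
  simp only [kv]
  rw [sTWco, sum_co_co, sum_co_co, sum_co_co, sum_co_co]
  rcases h with ⟨rfl, rfl, rfl⟩ | ⟨rfl, rfl, rfl⟩ | ⟨rfl, rfl, rfl⟩ | ⟨rfl, rfl, rfl⟩
  · rw [if_neg (show ¬ ((1 : ZMod 12) - 5 = 0) by decide), if_neg (show ¬ ((1 : ZMod 12) + 5 = 0) by decide),
      if_neg (show ¬ ((1 : ZMod 12) - 3 = 0) by decide), if_neg (show ¬ ((1 : ZMod 12) + 3 = 0) by decide),
      if_neg (show ¬ ((1 : ZMod 12) - 4 = 0) by decide), if_neg (show ¬ ((1 : ZMod 12) + 4 = 0) by decide),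
      if_neg (show ¬ ((1 : ZMod 12) - 6 = 0) by decide), if_neg (show ¬ ((1 : ZMod 12) + 6 = 0) by decide),
      if_neg d1]
    fin_cases a <;>
    simp only [TR, TS, Fin.zero_eta, Fin.mk_one, Fin.reduceFinMk, Matrix.cons_val, one_mul, e3_0, e3_1, e3_2,
      e4_0, e4_1, e4_2, e4_3, mul_zero, mul_one, v1, v2, v3, v4, v5, v6, v7, v8, v9, co_0, co_1, co_2, co_3,
      co_4, co_5, co_6, co_7, co_8, co_9, co_10, co_11, si_0, si_1, si_2, si_3, si_4, si_5, si_6, si_7, si_8,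
      si_9, si_10, si_11] <;> ring
  · rw [if_neg (show ¬ ((2 : ZMod 12) - 5 = 0) by decide), if_neg (show ¬ ((2 : ZMod 12) + 5 = 0) by decide),
      if_neg (show ¬ ((2 : ZMod 12) - 3 = 0) by decide), if_neg (show ¬ ((2 : ZMod 12) + 3 = 0) by decide),
      if_neg (show ¬ ((2 : ZMod 12) - 4 = 0) by decide), if_neg (show ¬ ((2 : ZMod 12) + 4 = 0) by decide),
      if_neg (show ¬ ((2 : ZMod 12) - 6 = 0) by decide), if_neg (show ¬ ((2 : ZMod 12) + 6 = 0) by decide),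
      if_neg d2]
    fin_cases a <;>
    simp only [TR, TS, Fin.zero_eta, Fin.mk_one, Fin.reduceFinMk, Matrix.cons_val, one_mul, e3_0, e3_1, e3_2,
      e4_0, e4_1, e4_2, e4_3, mul_zero, mul_one, v1, v2, v3, v4, v5, v6, v7, v8, v9, co_0, co_1, co_2, co_3,
      co_4, co_5, co_6, co_7, co_8, co_9, co_10, co_11, si_0, si_1, si_2, si_3, si_4, si_5, si_6, si_7, si_8,
      si_9, si_10, si_11] <;> ring
  · rw [if_neg (show ¬ ((3 : ZMod 12) - 5 = 0) by decide), if_neg (show ¬ ((3 : ZMod 12) + 5 = 0) by decide),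
      if_pos (show ((3 : ZMod 12) - 3 = 0) by decide), if_neg (show ¬ ((3 : ZMod 12) + 3 = 0) by decide),
      if_neg (show ¬ ((3 : ZMod 12) - 4 = 0) by decide), if_neg (show ¬ ((3 : ZMod 12) + 4 = 0) by decide),
      if_neg (show ¬ ((3 : ZMod 12) - 6 = 0) by decide), if_neg (show ¬ ((3 : ZMod 12) + 6 = 0) by decide),
      if_neg d3]
    fin_cases a <;>
    simp only [TR, TS, Fin.zero_eta, Fin.mk_one, Fin.reduceFinMk, Matrix.cons_val, one_mul, e3_0, e3_1, e3_2,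
      e4_0, e4_1, e4_2, e4_3, mul_zero, mul_one, v1, v2, v3, v4, v5, v6, v7, v8, v9, co_0, co_1, co_2, co_3,
      co_4, co_5, co_6, co_7, co_8, co_9, co_10, co_11, si_0, si_1, si_2, si_3, si_4, si_5, si_6, si_7, si_8,
      si_9, si_10, si_11] <;> ring
  · have hs := s_sq
    rw [if_neg (show ¬ ((4 : ZMod 12) - 5 = 0) by decide), if_neg (show ¬ ((4 : ZMod 12) + 5 = 0) by decide),
      if_neg (show ¬ ((4 : ZMod 12) - 3 = 0) by decide), if_neg (show ¬ ((4 : ZMod 12) + 3 = 0) by decide),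
      if_pos (show ((4 : ZMod 12) - 4 = 0) by decide), if_neg (show ¬ ((4 : ZMod 12) + 4 = 0) by decide),
      if_neg (show ¬ ((4 : ZMod 12) - 6 = 0) by decide), if_neg (show ¬ ((4 : ZMod 12) + 6 = 0) by decide),
      if_neg d4]
    fin_cases a <;>
    simp only [TR, TS, Fin.zero_eta, Fin.mk_one, Fin.reduceFinMk, Matrix.cons_val, one_mul, e3_0, e3_1, e3_2,
      e4_0, e4_1, e4_2, e4_3, mul_zero, mul_one, v1, v2, v3, v4, v5, v6, v7, v8, v9, co_0, co_1, co_2, co_3,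
      co_4, co_5, co_6, co_7, co_8, co_9, co_10, co_11, si_0, si_1, si_2, si_3, si_4, si_5, si_6, si_7, si_8,
      si_9, si_10, si_11] <;> ring

lemma kerS (m : ZMod 12) (r q : ℝ)
    (h : (m = 1 ∧ r = 0 ∧ q = 0) ∨ (m = 2 ∧ r = 0 ∧ q = 0) ∨ (m = 3 ∧ r = 0 ∧ q = 3 * σ) ∨
      (m = 4 ∧ r = 4 * ρ ∧ q = 0)) : ∑ i, kv si m r q i • xx i = 0 := by
  obtain ⟨v1, v2, v3, v4, v5, v6, v7, v8, v9⟩ := evals
  apply vecsum
  intro a
  rw [sumk]
  simp only [kv]
  rw [sTWsi, sum_si_si, sum_si_si, sum_si_si]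
  rcases h with ⟨rfl, rfl, rfl⟩ | ⟨rfl, rfl, rfl⟩ | ⟨rfl, rfl, rfl⟩ | ⟨rfl, rfl, rfl⟩
  · rw [if_neg (show ¬ ((1 : ZMod 12) - 5 = 0) by decide), if_neg (show ¬ ((1 : ZMod 12) + 5 = 0) by decide),
      if_neg (show ¬ ((1 : ZMod 12) - 3 = 0) by decide), if_neg (show ¬ ((1 : ZMod 12) + 3 = 0) by decide),
      if_neg (show ¬ ((1 : ZMod 12) - 4 = 0) by decide), if_neg (show ¬ ((1 : ZMod 12) + 4 = 0) by decide)]
    fin_cases a <;>
    simp only [TR, TS, Fin.zero_eta, Fin.mk_one, Fin.reduceFinMk, Matrix.cons_val, one_mul, e3_0, e3_1, e3_2,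
      e4_0, e4_1, e4_2, e4_3, mul_zero, mul_one, v1, v2, v3, v4, v5, v6, v7, v8, v9, co_0, co_1, co_2, co_3,
      co_4, co_5, co_6, co_7, co_8, co_9, co_10, co_11, si_0, si_1, si_2, si_3, si_4, si_5, si_6, si_7, si_8,
      si_9, si_10, si_11] <;> ring
  · rw [if_neg (show ¬ ((2 : ZMod 12) - 5 = 0) by decide), if_neg (show ¬ ((2 : ZMod 12) + 5 = 0) by decide),
      if_neg (show ¬ ((2 : ZMod 12) - 3 = 0) by decide), if_neg (show ¬ ((2 : ZMod 12) + 3 = 0) by decide),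
      if_neg (show ¬ ((2 : ZMod 12) - 4 = 0) by decide), if_neg (show ¬ ((2 : ZMod 12) + 4 = 0) by decide)]
    fin_cases a <;>
    simp only [TR, TS, Fin.zero_eta, Fin.mk_one, Fin.reduceFinMk, Matrix.cons_val, one_mul, e3_0, e3_1, e3_2,
      e4_0, e4_1, e4_2, e4_3, mul_zero, mul_one, v1, v2, v3, v4, v5, v6, v7, v8, v9, co_0, co_1, co_2, co_3,
      co_4, co_5, co_6, co_7, co_8, co_9, co_10, co_11, si_0, si_1, si_2, si_3, si_4, si_5, si_6, si_7, si_8,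
      si_9, si_10, si_11] <;> ring
  · rw [if_neg (show ¬ ((3 : ZMod 12) - 5 = 0) by decide), if_neg (show ¬ ((3 : ZMod 12) + 5 = 0) by decide),
      if_pos (show ((3 : ZMod 12) - 3 = 0) by decide), if_neg (show ¬ ((3 : ZMod 12) + 3 = 0) by decide),
      if_neg (show ¬ ((3 : ZMod 12) - 4 = 0) by decide), if_neg (show ¬ ((3 : ZMod 12) + 4 = 0) by decide)]
    fin_cases a <;>
    simp only [TR, TS, Fin.zero_eta, Fin.mk_one, Fin.reduceFinMk, Matrix.cons_val, one_mul, e3_0, e3_1, e3_2,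
      e4_0, e4_1, e4_2, e4_3, mul_zero, mul_one, v1, v2, v3, v4, v5, v6, v7, v8, v9, co_0, co_1, co_2, co_3,
      co_4, co_5, co_6, co_7, co_8, co_9, co_10, co_11, si_0, si_1, si_2, si_3, si_4, si_5, si_6, si_7, si_8,
      si_9, si_10, si_11] <;> ring
  · have hs := s_sq
    rw [if_neg (show ¬ ((4 : ZMod 12) - 5 = 0) by decide), if_neg (show ¬ ((4 : ZMod 12) + 5 = 0) by decide),
      if_neg (show ¬ ((4 : ZMod 12) - 3 = 0) by decide), if_neg (show ¬ ((4 : ZMod 12) + 3 = 0) by decide),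
      if_pos (show ((4 : ZMod 12) - 4 = 0) by decide), if_neg (show ¬ ((4 : ZMod 12) + 4 = 0) by decide)]
    fin_cases a <;>
    simp only [TR, TS, Fin.zero_eta, Fin.mk_one, Fin.reduceFinMk, Matrix.cons_val, one_mul, e3_0, e3_1, e3_2,
      e4_0, e4_1, e4_2, e4_3, mul_zero, mul_one, v1, v2, v3, v4, v5, v6, v7, v8, v9, co_0, co_1, co_2, co_3,
      co_4, co_5, co_6, co_7, co_8, co_9, co_10, co_11, si_0, si_1, si_2, si_3, si_4, si_5, si_6, si_7, si_8,
      si_9, si_10, si_11] <;> first | ring1 | linear_combination (ρ * (-2)) * hs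

end

end H16Jam
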