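import Pool.Agent.H16R3.Jam.QPos

set_option autoImplicit false

namespace H16Jam

open scoped BigOperators RealInnerProductSpace

noncomputable section

/-- the code spans -/
lemma xx_span : Submodule.span ℝ (Set.range xx) = ⊤ := by
  rw [← Submodule.orthogonal_eq_bot_iff, Submodule.eq_bot_iff]
  intro u hu
  have h : ∀ i, ⟪xx i, u⟫ = 0 := fun i =>
    (Submodule.mem_orthogonal _ _).mp hu _ (Submodule.subset_span ⟨i, rfl⟩)
  have h2 : ∀ i, ∑ a, TT i a * (Real.sqrt (wt a) * u a) = 0 := by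
    intro i
    have := h i
    rw [xx, vec, PiLp.inner_apply] at this
    simp only [RCLike.inner_apply, conj_trivial] at this
    rw [← this]
    apply Finset.sum_congr rfl; intro a _; ring
  set t : Fin 10 → ℝ := fun a => Real.sqrt (wt a) * u a with ht
  have ht0 : ∀ a, t a = 0 → u a = 0 := by
    intro a ha
    rcases mul_eq_zero.mp ha with h3 | h3
    · exact absurd h3 (Real.sqrt_pos.mpr (wt_pos a)).ne'
    · exact h3
  have R0 := h2 (Sum.inr (Sum.inl 0))
  have R1 := h2 (Sum.inr (Sum.inl 1))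
  have R2 := h2 (Sum.inr (Sum.inl 2))
  have S0 := h2 (Sum.inr (Sum.inr 0))
  have S1 := h2 (Sum.inr (Sum.inr 1))
  have S2 := h2 (Sum.inr (Sum.inr 2))
  have S3 := h2 (Sum.inr (Sum.inr 3))
  have W0 := h2 (Sum.inl 0)
  have W3 := h2 (Sum.inl 3)
  have W6 := h2 (Sum.inl 6)
  rw [sum10] at R0 R1 R2 S0 S1 S2 S3 W0 W3 W6
  simp only [TT, TW, TR, TS, e3_0, e3_1, e3_2, e4_0, e4_1, e4_2, e4_3, mul_zero, mul_one,
    p4_2, p3_2, p3_3, p6_2, p6_3, p5_3, p5_6, p3_6, p4_3, p4_6, p6_6, co_0, co_1, co_2, co_3,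
        co_4, co_5, co_6, co_7, co_8, co_9, co_10, co_11, si_0, si_1, si_2, si_3, si_4, si_5, si_6, si_7,
        si_8, si_9, si_10, si_11, Matrix.cons_val] at R0 R1 R2 S0 S1 S2 S3 W0 W3 W6
  change _ * t 0 + _ * t 1 + _ * t 2 + _ * t 3 + _ * t 4 + _ * t 5 + _ * t 6 + _ * t 7 + _ * t 8 + _ * t 9 = 0
    at R0 R1 R2 S0 S1 S2 S3 W0 W3 W6
  have hs := s_pos
  have z4 : t 4 = 0 := by linarith
  have z5 : t 5 = 0 := by
    have : s * t 5 = 0 := by linarith
    exact (mul_eq_zero.mp this).resolve_left hs.ne'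
  have z2 : t 2 = 0 := by linarith
  have z3 : t 3 = 0 := by linarith
  have z6 : t 6 = 0 := by linarith
  have z8 : t 8 = 0 := by linarith
  have z9 : t 9 = 0 := by linarith
  rw [z2, z3, z4, z5, z6, z8, z9] at W0 W3 W6
  have z0 : t 0 = 0 := by linarith
  have z7 : t 7 = 0 := by linarith
  have z1 : t 1 = 0 := by linarith
  ext a
  rw [PiLp.zero_apply]
  apply ht0
  fin_cases a <;> assumption

lemma supp_of (v : Idx → EuclideanSpace ℝ (Fin 10)) (h0 : ∀ i, ⟪xx i, v i⟫ = 0)
    (h1 : ∀ i j, i ≠ j → 0 < Ω i j → ⟪xx i, v j⟫ + ⟪v i, xx j⟫ = 0) : Supp (HH v) := by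
  have hd : ∀ i, HH v i i = 0 := by
    intro i; unfold HH; rw [real_inner_comm (xx i) (v i), h0]; simp
  refine ⟨HH_symm v, ?_, ?_, ?_, ?_, ?_, ?_⟩
  · intro k t ht1 ht2 ht3
    by_cases ht : t = 0
    · rw [ht, add_zero]; exact hd _
    · apply h1
      · intro h
        apply ht
        have h2 : k = k + t := Sum.inl_injective h
        exact left_eq_add.mp h2
      · rw [ΩWW]
        have e : k - (k + t) = -t := by ring
        rw [e]
        have hne : -t ≠ 0 := neg_ne_zero.mpr ht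
        rcases pairW (-t) hne with h | ⟨-, -, h | h | h⟩
        · exact h.1
        · exfalso; apply ht2
          have : t = -1 := by rw [← h]; ring
          rw [this]; decide
        · exfalso; apply ht1
          have : t = -11 := by rw [← h]; ring
          rw [this]; decide
        · exfalso; apply ht3
          have : t = -6 := by rw [← h]; ring
          rw [this]; decide
  · intro k i hi
    exact h1 _ _ (by simp) (WRc k i hi).1
  · intro k i hi
    exact h1 _ _ (by simp) (WSc k i hi).1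
  · intro i j
    by_cases hij : i = j
    · rw [hij]; exact hd _
    · exact h1 _ _ (by simpa using hij) (RRc i j hij).1
  · intro i j
    by_cases hij : i = j
    · rw [hij]; exact hd _
    · exact h1 _ _ (by simpa using hij) (SSc i j hij).1
  · intro i j
    exact h1 _ _ (by simp) (RSc i j).1

lemma bilK_of (v : Idx → EuclideanSpace ℝ (Fin 10)) : BilK (HH v) := by
  intro κ κ' h h'
  have e1 : ∑ i, ∑ j, κ i * κ' j * ⟪xx i, v j⟫ = ⟪∑ i, κ i • xx i, ∑ j, κ' j • v j⟫ := by
    rw [sum_inner]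
    apply Finset.sum_congr rfl; intro i _
    rw [inner_sum]
    apply Finset.sum_congr rfl; intro j _
    rw [inner_smul_left, inner_smul_right]; simp only [RCLike.conj_to_real]; ring
  have e2 : ∑ i, ∑ j, κ i * κ' j * ⟪v i, xx j⟫ = ⟪∑ i, κ i • v i, ∑ j, κ' j • xx j⟫ := by
    rw [sum_inner]
    apply Finset.sum_congr rfl; intro i _
    rw [inner_sum]
    apply Finset.sum_congr rfl; intro j _
    rw [inner_smul_left, inner_smul_right]; simp only [RCLike.conj_to_real]; ring
  simp only [HH, mul_add, Finset.sum_add_distrib]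
  rw [e1, e2, h, h', inner_zero_left, inner_zero_right, add_zero]

/-- a supported matrix with vanishing data vanishes -/
lemma supp_zero {H : Idx → Idx → ℝ} (hH : Supp H) (hd : ∀ k, dd H k = 0) (hf : ∀ k, ff H k = 0)
    (ha : ∀ k, aa H k = 0) (hb : ∀ k, bb H k = 0) : ∀ i j, H i j = 0 := by
  have hWR : ∀ k i, H (Sum.inl k) (Sum.inr (Sum.inl i)) = 0 := by
    intro k i
    by_cases h : i = Rk k
    · rw [h]; exact ha k
    · exact hH.wr k i h
  have hWS : ∀ k i, H (Sum.inl k) (Sum.inr (Sum.inr i)) = 0 := by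
    intro k i
    by_cases h : i = Sk k
    · rw [h]; exact hb k
    · exact hH.ws k i h
  have hWW : ∀ k l, H (Sum.inl k) (Sum.inl l) = 0 := by
    intro k l
    have e : l = k + (l - k) := by ring
    by_cases h1 : l - k = 1
    · rw [e, h1]; exact hd k
    · by_cases h2 : l - k = 11
      · have : k = l + 1 := by
          have h3 : (12 : ZMod 12) = 0 := by decide
          linear_combination -h2 - h3
        rw [hH.symm, this]; exact hd l
      · by_cases h3 : l - k = 6
        · rw [e, h3]; exact hf k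
        · rw [e]; exact hH.ww k _ h1 h2 h3
  intro i j
  rcases i with k | i | i <;> rcases j with l | j | j
  · exact hWW k l
  · exact hWR k j
  · exact hWS k j
  · rw [hH.symm]; exact hWR l i
  · exact hH.rr i j
  · exact hH.rs i j
  · rw [hH.symm]; exact hWS l i
  · rw [hH.symm]; exact hH.rs j i
  · exact hH.ss i j

/-- the decomposition of first-order flexes -/
lemma flex_decomp (v : Idx → EuclideanSpace ℝ (Fin 10)) (h0 : ∀ i, ⟪xx i, v i⟫ = 0)
    (h1 : ∀ i j, i ≠ j → 0 < Ω i j → ⟪xx i, v j⟫ + ⟪v i, xx j⟫ = 0) :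
    ∃ t : ℝ, ∃ A : EuclideanSpace ℝ (Fin 10) →ₗ[ℝ] EuclideanSpace ℝ (Fin 10),
      (∀ u w, ⟪A u, w⟫ = -⟪u, A w⟫) ∧ ∀ i, v i = t • vv i + A (xx i) := by
  have hS := supp_of v h0 h1
  obtain ⟨hd, t, hf, ha, hb⟩ := solveH hS (bilK_of v)
  have hHsub : ∀ i j, HH (fun i => v i - t • vv i) i j = HH v i j - t * HH vv i j := by
    intro i j
    unfold HH
    rw [inner_sub_right, inner_sub_left, inner_smul_right, inner_smul_left]
    simp only [RCLike.conj_to_real]
    ring
  have hS' : Supp (HH (fun i => v i - t • vv i)) := by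
    refine ⟨HH_symm _, ?_, ?_, ?_, ?_, ?_, ?_⟩
    · intro k u h1 h2 h3; rw [hHsub, hS.ww k u h1 h2 h3, suppV.ww k u h1 h2 h3]; ring
    · intro k i h; rw [hHsub, hS.wr k i h, suppV.wr k i h]; ring
    · intro k i h; rw [hHsub, hS.ws k i h, suppV.ws k i h]; ring
    · intro i j; rw [hHsub, hS.rr, suppV.rr]; ring
    · intro i j; rw [hHsub, hS.ss, suppV.ss]; ring
    · intro i j; rw [hHsub, hS.rs, suppV.rs]; ring
  have hz := supp_zero hS' (fun k => by
      have e1 := hd k; have e2 := ddV k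
      unfold dd at e1 e2 ⊢; rw [hHsub, e1, e2]; ring) (fun k => by
      have e1 := hf k; have e2 := ffV k
      unfold ff at e1 e2 ⊢; rw [hHsub, e1, e2]; ring) (fun k => by
      have e1 := ha k; have e2 := aaV k
      unfold aa at e1 e2 ⊢; rw [hHsub, e1, e2]; ring) (fun k => by
      have e1 := hb k; have e2 := bbV k
      unfold bb at e1 e2 ⊢; rw [hHsub, e1, e2]; ring)
  obtain ⟨A, hA, hvA⟩ := exists_skew xx (fun i => v i - t • vv i) xx_span (fun i j => hz i j)
  refine ⟨t, A, hA, fun i => ?_⟩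
  rw [← hvA i]; abel

lemma ΩQ (v : Idx → EuclideanSpace ℝ (Fin 10)) (t : ℝ)
    (A : EuclideanSpace ℝ (Fin 10) →ₗ[ℝ] EuclideanSpace ℝ (Fin 10))
    (hv : ∀ i, v i = t • vv i + A (xx i)) :
    ∑ i, ∑ j, Ω i j * ⟪v i, v j⟫ = t ^ 2 * ∑ i, ∑ j, Ω i j * ⟪vv i, vv j⟫ := by
  have hz : ∀ w : Idx → EuclideanSpace ℝ (Fin 10), ∑ i, ∑ j, Ω i j * ⟪w i, A (xx j)⟫ = 0 := by
    intro w
    apply Finset.sum_eq_zero; intro i _
    have : ∑ j, Ω i j * ⟪w i, A (xx j)⟫ = ⟪w i, A (∑ j, Ω i j • xx j)⟫ := by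
      rw [map_sum, inner_sum]
      apply Finset.sum_congr rfl; intro j _
      rw [map_smul, inner_smul_right]
    rw [this, Ω_eq, map_zero, inner_zero_right]
  have hz' : ∀ w : Idx → EuclideanSpace ℝ (Fin 10), ∑ i, ∑ j, Ω i j * ⟪A (xx i), w j⟫ = 0 := by
    intro w
    rw [Finset.sum_comm, ← hz w]
    apply Finset.sum_congr rfl; intro i _
    apply Finset.sum_congr rfl; intro j _
    rw [Ω_symm, real_inner_comm]
  have h3 : ∀ i j, Ω i j * ⟪v i, v j⟫ = t ^ 2 * (Ω i j * ⟪vv i, vv j⟫) +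
      t * (Ω i j * ⟪vv i, A (xx j)⟫) + Ω i j * ⟪A (xx i), v j⟫ := by
    intro i j
    rw [hv i, inner_add_left, hv j, inner_smul_left, inner_add_right]
    simp only [inner_smul_right, RCLike.conj_to_real]
    ring
  simp only [h3, Finset.sum_add_distrib, ← Finset.mul_sum]
  rw [hz vv, hz' v]; ring

theorem jam_final : ∃ ε : ℝ, 0 < ε ∧ ∀ y : Idx → EuclideanSpace ℝ (Fin 10), (∀ i, ‖y i‖ = 1) →
    (∀ i, dist (y i) (xx i) < ε) → (∀ i j, i ≠ j → ⟪y i, y j⟫ ≤ cc) →
    ∃ g : EuclideanSpace ℝ (Fin 10) ≃ₗᵢ[ℝ] EuclideanSpace ℝ (Fin 10), ∀ i, y i = g (xx i) := by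
  have : Nonempty Idx := ⟨Sum.inl 0⟩
  apply jammed_of_second_order xx cc Ω xx_norm Ω_symm
  · intro i j hij
    rcases pair_cases i j hij with h | h
    · exact h.1.le
    · exact h.1.ge
  · exact Ω_eq
  · intro i j hij hΩ
    rcases pair_cases i j hij with h | h
    · exact h.2
    · exact absurd h.1 hΩ.ne'
  · intro v h0 h1 hQ
    obtain ⟨t, A, hA, hv⟩ := flex_decomp v h0 h1
    rw [ΩQ v t A hv] at hQ
    have hq := Q_pos
    have ht : t = 0 := by
      by_contra ht
      have : 0 < t ^ 2 := by positivity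
      have := mul_pos this hq
      linarith
    refine ⟨A, hA, fun i => ?_⟩
    rw [hv i, ht, zero_smul, zero_add]

lemma HvC (i j : Idx) (hij : i ≠ j) (hΩ : 0 < Ω i j) : HH vv i j = 0 := by
  have hWR : ∀ k i, 0 < Ω (Sum.inl k) (Sum.inr (Sum.inl i)) →
      HH vv (Sum.inl k) (Sum.inr (Sum.inl i)) = 0 := by
    intro k i h
    by_cases h2 : i = Rk k
    · exact absurd (WRn k i h2).1 h.ne'
    · exact suppV.wr k i h2
  have hWS : ∀ k i, 0 < Ω (Sum.inl k) (Sum.inr (Sum.inr i)) →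
      HH vv (Sum.inl k) (Sum.inr (Sum.inr i)) = 0 := by
    intro k i h
    by_cases h2 : i = Sk k
    · exact absurd (WSn k i h2).1 h.ne'
    · exact suppV.ws k i h2
  rcases i with k | i | i <;> rcases j with l | j | j
  · have e : l = k + (l - k) := by ring
    have hz : ∀ t : ZMod 12, oW (-t) = 0 → ¬ (l - k = t) := by
      intro t ht h
      rw [ΩWW] at hΩ
      have : k - l = -t := by rw [← h]; ring
      rw [this, ht] at hΩ
      exact lt_irrefl _ hΩ
    have o1 : oW 1 = 0 := by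
      have := θ1_eq
      simp only [oW, p2_1, p3_1, p4_1, co_1, co_2, co_3, co_4]; linear_combination this
    have o11 : oW 11 = 0 := by
      have := θ1_eq
      simp only [oW, p2_11, p3_11, p4_11, co_11, co_10, co_9, co_8]; linear_combination this
    have o6 : oW 6 = 0 := by
      have : θ2 = θ1 - 1 / 2 + θ3 - θ4 := rfl
      simp only [oW, p2_6, p3_6, p4_6, co_6, co_0]; rw [this]; ring
    rw [e]
    apply suppV.ww
    · apply hz; rw [show -(1 : ZMod 12) = 11 by decide]; exact o11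
    · apply hz; rw [show -(11 : ZMod 12) = 1 by decide]; exact o1
    · apply hz; rw [show -(6 : ZMod 12) = 6 by decide]; exact o6
  · exact hWR k j hΩ
  · exact hWS k j hΩ
  · rw [HH_symm]; rw [Ω_symm] at hΩ; exact hWR l i hΩ
  · exact suppV.rr i j
  · exact suppV.rs i j
  · rw [HH_symm]; rw [Ω_symm] at hΩ; exact hWS l i hΩ
  · rw [HH_symm]; exact suppV.rs j i
  · exact suppV.ss i j

lemma Hvd (i : Idx) : ⟪xx i, vv i⟫ = 0 := by
  have h : HH vv i i = 0 := by
    rcases i with k | i | i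
    · have := suppV.ww k 0 (by decide) (by decide) (by decide)
      rwa [add_zero] at this
    · exact suppV.rr i i
    · exact suppV.ss i i
  unfold HH at h
  rw [real_inner_comm (xx i) (vv i)] at h
  linarith

lemma vv_not_rot : ¬ ∃ A : EuclideanSpace ℝ (Fin 10) →ₗ[ℝ] EuclideanSpace ℝ (Fin 10),
    (∀ u w, ⟪A u, w⟫ = -⟪u, A w⟫) ∧ ∀ i, vv i = A (xx i) := by
  rintro ⟨A, hA, hv⟩
  have h := ffV 0
  rw [mul_zero, co_0] at h
  unfold ff HH at h
  rw [hv, hv, hA] at h
  norm_num at h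

lemma dist_unit {u w : EuclideanSpace ℝ (Fin 10)} (hu : ‖u‖ = 1) (hw : ‖w‖ = 1) :
    dist u w = Real.sqrt (2 - 2 * ⟪u, w⟫) := by
  rw [dist_eq_norm, ← Real.sqrt_sq (norm_nonneg (u - w)), norm_sub_sq_real, hu, hw]
  congr 1; ring

end

end H16Jam
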