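import Pool.Agent.H16R3.Jam.VZero

set_option autoImplicit false

namespace H16Jam

open scoped BigOperators RealInnerProductSpace

noncomputable section

lemma sum12R (f : ZMod 12 → ℝ) : ∑ t, f t = f 0 + f 1 + f 2 + f 3 + f 4 + f 5 + f 6 + f 7 + f 8 +
    f 9 + f 10 + f 11 := by
  have h : ∑ t, f t = ∑ t : Fin 12, f t := rfl
  rw [h]
  simp only [Fin.sum_univ_succ, Fin.sum_univ_zero]
  simp
  ring_nf
  rfl

def P5 : ℝ := 1 / (36 * (σ * σ) * ee)
def P3 : ℝ := 1 / (72 * (σ * σ) * ee)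
def P4 : ℝ := 1 / (24 * (ρ * ρ) * ee)
def P6 : ℝ := 1 / (144 * (σ * σ) * ee) + ee * (2 * s - 3) / 6 * (zz * zz)
def P0 : ℝ := 7 * ee / 12 * (τ1 * τ1) + (cc + ee / 7) * (τ2 * τ2)

def DD (d : ZMod 12) : ℝ := P5 * co d + P3 * co (3 * d) + P4 * co (2 * d) + P6 + P0 * co (6 * d)

lemma vvWW (k l : ZMod 12) : ⟪vv (Sum.inl k), vv (Sum.inl l)⟫ = DD (k - l) := by
  rw [vv, vv, inner_vec, sum10]
  simp only [TV, TVW, wt, Matrix.cons_val]
  have h1 := ee_pos; have h2 := ρ_pos; have h3 := σ_pos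
  have hσ := σ_sq
  have e1 : ee * (1 - s / 3) = ee * (σ * σ) := by rw [hσ]
  rw [e1]
  unfold DD
  simp only [co_ms, si_six]
  rw [co_sub]
  have t1 : ee * (σ * σ) * (-(co k) / (6 * σ * σ * ee) * (-(co l) / (6 * σ * σ * ee))) +
      ee * (σ * σ) * (si k / (6 * σ * σ * ee) * (si l / (6 * σ * σ * ee))) =
      P5 * (co k * co l + si k * si l) := by unfold P5; field_simp; ring
  have t2 : ee / 2 * (-(co (3 * k)) / (6 * σ * ee) * (-(co (3 * l)) / (6 * σ * ee))) +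
      ee / 2 * (si (3 * k) / (6 * σ * ee) * (si (3 * l) / (6 * σ * ee))) =
      P3 * (co (3 * k) * co (3 * l) + si (3 * k) * si (3 * l)) := by unfold P3; field_simp; ring
  have t3 : 2 * ee / 3 * (co (2 * k) / (4 * ρ * ee) * (co (2 * l) / (4 * ρ * ee))) +
      2 * ee / 3 * (-(si (2 * k)) / (4 * ρ * ee) * (-(si (2 * l)) / (4 * ρ * ee))) =
      P4 * (co (2 * k) * co (2 * l) + si (2 * k) * si (2 * l)) := by unfold P4; field_simp; ring
  have t4 : ee / 4 * (1 / (6 * σ * ee) * (1 / (6 * σ * ee))) = 1 / (144 * (σ * σ) * ee) := by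
    field_simp; ring
  unfold P6 P0
  linear_combination t1 + t2 + t3 + t4

lemma sum_oD : ∑ d, oW d * DD d = 12 * (P6 + θ1 * P5 + θ2 * P4 + θ3 * P3) := by
  rw [sum12R]
  have hs := s_sq
  simp only [oW, DD, p2_0, p2_1, p2_2, p2_3, p2_4, p2_5, p2_6, p2_7, p2_8, p2_9, p2_10, p2_11,
        p3_0, p3_1, p3_2, p3_3, p3_4, p3_5, p3_6, p3_7, p3_8, p3_9, p3_10, p3_11,
        p4_0, p4_1, p4_2, p4_3, p4_4, p4_5, p4_6, p4_7, p4_8, p4_9, p4_10, p4_11,
        p6_0, p6_1, p6_2, p6_3, p6_4, p6_5, p6_6, p6_7, p6_8, p6_9, p6_10, p6_11, co_0, co_1, co_2, co_3,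
        co_4, co_5, co_6, co_7, co_8, co_9, co_10, co_11]
  linear_combination (2 * θ1 * P5) * hs

lemma Q_formula : ∑ i, ∑ j, Ω i j * ⟪vv i, vv j⟫ =
    144 * (P6 + θ1 * P5 + θ2 * P4 + θ3 * P3) := by
  have h1 : ∀ i j, ⟪vv i, vv (Sum.inr j)⟫ = 0 := fun i j => by rw [vv_inr, inner_zero_right]
  have h2 : ∀ i j, ⟪vv (Sum.inr i), vv j⟫ = 0 := fun i j => by rw [vv_inr, inner_zero_left]
  rw [Fintype.sum_sum_type]
  simp only [Fintype.sum_sum_type (α₁ := ZMod 12), h1, h2, mul_zero, Finset.sum_const_zero, add_zero]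
  have h3 : ∀ k : ZMod 12, ∑ l : ZMod 12, Ω (Sum.inl k) (Sum.inl l) * ⟪vv (Sum.inl k), vv (Sum.inl l)⟫ =
      ∑ d, oW d * DD d := by
    intro k
    rw [← Equiv.sum_comp (Equiv.subLeft k)]
    apply Finset.sum_congr rfl; intro d _
    rw [Equiv.subLeft_apply, ΩWW, vvWW]
    have : k - (k - d) = d := by ring
    rw [this]
  simp only [h3, sum_oD, Finset.sum_const, Finset.card_univ, ZMod.card, nsmul_eq_mul]
  push_cast
  ring

lemma Ξ_hi : Ξ < 0.04 := by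
  have h1 := ee_pos; have h2 := ρ_pos; have h3 := σ_pos; have h4 := cc_lo
  have r1 := ρ_lo; have r2 := ρ_hi; have q1 := σ_lo; have q2 := σ_hi
  have g1 := γ_lb; have g2 := γ_ub
  have h5 : (cc + ee / 7) * τ2 = 1 / (42 * σ) - 1 / (28 * ρ) := by
    unfold τ2; rw [mul_div_cancel₀]; positivity
  set a := 1 / ρ with ha
  set b := 1 / σ with hb
  have ha1 : a < 1.6530 := by rw [ha, div_lt_iff₀ h2]; linarith
  have ha0 : 1.6528 < a := by rw [ha, lt_div_iff₀ h2]; linarith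
  have hb1 : b < 1.5383 := by rw [hb, div_lt_iff₀ h3]; linarith
  have hb0 : 1.5381 < b := by rw [hb, lt_div_iff₀ h3]; linarith
  have e1 : Ξ = (4 * ρ - 3 * σ) / 84 * (a + b / 2) + mu * (b / 42 - a / 28) := by
    have e2 : (cc + ee / 7) * mu * τ2 = mu * ((cc + ee / 7) * τ2) := by ring
    unfold Ξ
    rw [e2, h5]
    unfold τ1
    rw [ha, hb]
    field_simp
    ring
  rw [e1]
  have m1 : -0.3592 < mu := by unfold mu; linarith
  have m2 : mu < -0.3589 := by unfold mu; linarith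
  have k1 : 4 * ρ - 3 * σ < 0.4699 := by linarith
  have k0 : 0 < 4 * ρ - 3 * σ := by linarith
  have k2 : a + b / 2 < 2.4223 := by linarith
  have k3 : (4 * ρ - 3 * σ) * (a + b / 2) < 0.4699 * 2.4223 :=
    mul_lt_mul'' k1 k2 k0.le (by linarith)
  have k4 : -0.0225 < b / 42 - a / 28 := by linarith
  have k5 : b / 42 - a / 28 < 0 := by linarith
  have k6 : (-mu) * (-(b / 42 - a / 28)) < 0.3592 * 0.0225 :=
    mul_lt_mul'' (by linarith) (by linarith) (by linarith) (by linarith)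
  nlinarith

lemma Q_pos : 0 < ∑ i, ∑ j, Ω i j * ⟪vv i, vv j⟫ := by
  rw [Q_formula]
  apply mul_pos (by norm_num)
  have h1 := ee_pos; have h2 := ρ_pos; have h3 := σ_pos
  have s1 := s_lo; have s2 := s_hi
  have r1 := ρ_lo; have r2 := ρ_hi; have q1 := σ_lo; have q2 := σ_hi
  have t1 := θ1_lo; have t2 := θ2_lo; have t3 := θ3_lo
  have hz := zz_mul
  have hX := Ξ_hi
  have hmul : ee * (P6 + θ1 * P5 + θ2 * P4 + θ3 * P3) =
      (1 + 4 * θ1 + 2 * θ3) / (144 * (σ * σ)) + θ2 / (24 * (ρ * ρ)) +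
      6 * (1 / 8 - Ξ) ^ 2 / (2 * s - 3) := by
    rw [← hz]
    unfold P6 P5 P4 P3
    have : (2 * s - 3) ≠ 0 := by intro h; linarith
    field_simp
    ring
  have b1 : -0.0054 < (1 + 4 * θ1 + 2 * θ3) / (144 * (σ * σ)) := by
    rw [lt_div_iff₀ (by positivity)]
    nlinarith
  have b2 : -0.0801 < θ2 / (24 * (ρ * ρ)) := by
    rw [lt_div_iff₀ (by positivity)]
    nlinarith
  have b3 : 0.093 < 6 * (1 / 8 - Ξ) ^ 2 / (2 * s - 3) := by
    rw [lt_div_iff₀ (by linarith)]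
    nlinarith
  have h4 : 0 < ee * (P6 + θ1 * P5 + θ2 * P4 + θ3 * P3) := by rw [hmul]; linarith
  exact (mul_pos_iff_of_pos_left h1).mp h4

end

end H16Jam
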