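import Pool.Agent.H16R3.Jam.Flex

set_option autoImplicit false

namespace H16Jam

open scoped BigOperators RealInnerProductSpace

noncomputable section

def IsK (κ : Idx → ℂ) : Prop := (∑ i, (κ i).re • xx i = 0) ∧ (∑ i, (κ i).im • xx i = 0)

lemma cv_re (m : ZMod 12) (r q : ℝ) (i : Idx) : (cv m r q i).re = kv co m r q i := by
  rcases i with k | i | j <;> simp [cv, kv]

lemma cv_im (m : ZMod 12) (r q : ℝ) (i : Idx) : (cv m r q i).im = kv si m r q i := by
  rcases i with k | i | j <;> simp [cv, kv]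

lemma kv_co_neg (m : ZMod 12) (r q : ℝ) (i : Idx) : kv co (-m) r q i = kv co m r q i := by
  rcases i with k | i | j <;> simp only [kv, neg_mul, co_neg]

lemma kv_si_neg (m : ZMod 12) (r q : ℝ) (i : Idx) : kv si (-m) r q i = - kv si m r q i := by
  rcases i with k | i | j <;> simp only [kv, neg_mul, si_neg, mul_neg]

/-- admissible mode data -/
structure Adm (m : ZMod 12) (r q : ℝ) : Prop where
  k : IsK (cv m r q)
  h3 : ∀ k, (r : ℂ) * χ (m * e3 (Rk k)) = r * χ (m * k)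
  h4 : ∀ k, (q : ℂ) * χ (m * e4 (Sk k)) = q * χ (m * k)

lemma isK_of (m : ZMod 12) (r q : ℝ)
    (h : (m = 1 ∧ r = 0 ∧ q = 0) ∨ (m = 2 ∧ r = 0 ∧ q = 0) ∨ (m = 3 ∧ r = 0 ∧ q = 3 * σ) ∨
      (m = 4 ∧ r = 4 * ρ ∧ q = 0)) : IsK (cv m r q) := by
  constructor
  · simp only [cv_re]; exact kerC m r q h
  · simp only [cv_im]; exact kerS m r q h

lemma isK_neg (m : ZMod 12) (r q : ℝ) (h : IsK (cv m r q)) : IsK (cv (-m) r q) := by
  obtain ⟨h1, h2⟩ := h
  simp only [cv_re] at h1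
  simp only [cv_im] at h2
  constructor
  · simp only [cv_re, kv_co_neg]; exact h1
  · simp only [cv_im, kv_si_neg, neg_smul, Finset.sum_neg_distrib]; rw [h2, neg_zero]

lemma adm0 : Adm 0 al be := by
  refine ⟨⟨?_, ?_⟩, fun k => by simp, fun k => by simp⟩
  · simp only [cv_re]; exact ker0
  · simp only [cv_im]
    apply Finset.sum_eq_zero
    intro i _
    rcases i with k | i | j <;> simp [kv]

lemma adm1 : Adm 1 0 0 := ⟨isK_of 1 0 0 (Or.inl ⟨rfl, rfl, rfl⟩), fun k => by simp, fun k => by simp⟩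
lemma adm2 : Adm 2 0 0 := ⟨isK_of 2 0 0 (Or.inr (Or.inl ⟨rfl, rfl, rfl⟩)), fun k => by simp,
  fun k => by simp⟩
lemma adm3 : Adm 3 0 (3 * σ) := ⟨isK_of 3 0 _ (Or.inr (Or.inr (Or.inl ⟨rfl, rfl, rfl⟩))), fun k => by simp,
  fun k => by
    have : ∀ k : ZMod 12, 3 * e4 (Sk k) = 3 * k := by decide
    rw [this]⟩
lemma adm4 : Adm 4 (4 * ρ) 0 := ⟨isK_of 4 _ 0 (Or.inr (Or.inr (Or.inr ⟨rfl, rfl, rfl⟩))), fun k => by
    have : ∀ k : ZMod 12, 4 * e3 (Rk k) = 4 * k := by decide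
    rw [this],
  fun k => by simp⟩
lemma adm11 : Adm 11 0 0 := ⟨by
    have h : (11 : ZMod 12) = -1 := by decide
    rw [h]; exact isK_neg _ _ _ adm1.k, fun k => by simp, fun k => by simp⟩
lemma adm10 : Adm 10 0 0 := ⟨by
    have h : (10 : ZMod 12) = -2 := by decide
    rw [h]; exact isK_neg _ _ _ adm2.k, fun k => by simp, fun k => by simp⟩
lemma adm9 : Adm 9 0 (3 * σ) := ⟨by
    have h : (9 : ZMod 12) = -3 := by decide
    rw [h]; exact isK_neg _ _ _ adm3.k, fun k => by simp, fun k => by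
    have : ∀ k : ZMod 12, 9 * e4 (Sk k) = 9 * k := by decide
    rw [this]⟩
lemma adm8 : Adm 8 (4 * ρ) 0 := ⟨by
    have h : (8 : ZMod 12) = -4 := by decide
    rw [h]; exact isK_neg _ _ _ adm4.k, fun k => by
    have : ∀ k : ZMod 12, 8 * e3 (Rk k) = 8 * k := by decide
    rw [this], fun k => by simp⟩

/-- the bilinear condition satisfied by first-order data -/
def BilK (H : Idx → Idx → ℝ) : Prop :=
  ∀ κ κ' : Idx → ℝ, (∑ i, κ i • xx i = 0) → (∑ i, κ' i • xx i = 0) →
    ∑ i, ∑ j, κ i * κ' j * H i j = 0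

lemma bilC (H : Idx → Idx → ℝ) (hK : BilK H) (κ κ' : Idx → ℂ) (h : IsK κ) (h' : IsK κ') :
    ∑ i, ∑ j, κ i * κ' j * (H i j : ℂ) = 0 := by
  have e1 := hK _ _ h.1 h'.1
  have e2 := hK _ _ h.2 h'.2
  have e3 := hK _ _ h.1 h'.2
  have e4 := hK _ _ h.2 h'.1
  apply Complex.ext
  · simp only [Complex.re_sum, Complex.zero_re]
    have : ∀ i j, (κ i * κ' j * (H i j : ℂ)).re = (κ i).re * (κ' j).re * H i j -
        (κ i).im * (κ' j).im * H i j := by
      intro i j
      simp [Complex.mul_re, Complex.mul_im]; ring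
    simp only [this, Finset.sum_sub_distrib]
    rw [e1, e2, sub_zero]
  · simp only [Complex.im_sum, Complex.zero_im]
    have : ∀ i j, (κ i * κ' j * (H i j : ℂ)).im = (κ i).re * (κ' j).im * H i j +
        (κ i).im * (κ' j).re * H i j := by
      intro i j
      simp [Complex.mul_re, Complex.mul_im]; ring
    simp only [this, Finset.sum_add_distrib]
    rw [e3, e4, add_zero]

lemma eqn {H : Idx → Idx → ℝ} (hH : Supp H) (hK : BilK H) {m m' : ZMod 12} {r q r' q' : ℝ}
    (a : Adm m r q) (b : Adm m' r' q') :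
    (χ m' + χ m) * ft (dd H) (m + m') + χ (6 * m') * ft (ff H) (m + m') +
    ((r : ℂ) + r') * ft (aa H) (m + m') + ((q : ℂ) + q') * ft (bb H) (m + m') = 0 := by
  rw [← bilsum H hH m m' r q r' q' a.h3 a.h4 b.h3 b.h4]
  exact bilC H hK _ _ a.k b.k

lemma ff_odd {H : Idx → Idx → ℝ} (hH : Supp H) (j : ZMod 12) (hj : χ (6 * j) = -1) :
    ft (ff H) j = 0 := by
  have h1 : ∀ k, ff H (k + 6) = ff H k := by
    intro k
    unfold ff
    rw [hH.symm, add_assoc]
    have : (6 : ZMod 12) + 6 = 0 := by decide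
    rw [this, add_zero]
  have h2 : ft (ff H) j = - ft (ff H) j := by
    conv_lhs => unfold ft
    rw [← Equiv.sum_comp (Equiv.addRight (6 : ZMod 12))]
    unfold ft
    rw [← Finset.sum_neg_distrib]
    apply Finset.sum_congr rfl; intro k _
    rw [Equiv.coe_addRight, h1, mul_add, χ_add, mul_comm j 6, hj]; ring
  have h3 : (2 : ℂ) * ft (ff H) j = 0 := by
    rw [two_mul]; nth_rewrite 1 [h2]; ring
  rcases mul_eq_zero.mp h3 with h | h
  · norm_num at h
  · exact h

lemma χ6 : χ 6 = -1 := by apply Complex.ext <;> simp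
lemma x11_1 : χ 11 + χ 1 = (s : ℂ) := by apply Complex.ext <;> simp <;> ring
lemma x10_2 : χ 10 + χ 2 = 1 := by apply Complex.ext <;> simp <;> ring
lemma x9_3 : χ 9 + χ 3 = 0 := by apply Complex.ext <;> simp
lemma x8_4 : χ 8 + χ 4 = -1 := by apply Complex.ext <;> simp <;> ring
lemma x3_11 : χ 3 + χ 11 = χ 1 := by apply Complex.ext <;> simp <;> ring
lemma x4_10 : χ 4 + χ 10 = 0 := by apply Complex.ext <;> simp <;> ring
lemma x2_0 : χ 2 + 1 = (s : ℂ) * χ 1 := by
  have := s_sq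
  apply Complex.ext <;> simp <;> nlinarith
lemma x3_1 : χ 3 + χ 1 = (s : ℂ) * χ 2 := by
  have := s_sq
  apply Complex.ext <;> simp <;> nlinarith
lemma x8 : χ 8 = - χ 2 := by apply Complex.ext <;> simp <;> ring
lemma x4_0 : χ 4 + 1 = χ 2 := by apply Complex.ext <;> simp; ring
lemma x8_10 : χ 8 + χ 10 = -(χ 4 + χ 2) := by apply Complex.ext <;> simp <;> ring

lemma n2_11 : χ 2 + χ 11 ≠ 0 := by
  intro h
  have := congrArg Complex.re h
  simp at this
  have := s_pos
  linarith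
lemma n2_1 : χ 2 + χ 1 ≠ 0 := by
  intro h
  have := congrArg Complex.re h
  simp at this
  have := s_pos
  linarith
lemma n4_2 : χ 4 + χ 2 ≠ 0 := by
  intro h
  have := congrArg Complex.im h
  simp at this
  have := s_pos
  linarith
lemma n5 : χ 8 + χ 9 - χ 4 - χ 1 - χ 3 - χ 2 ≠ 0 := by
  intro h
  have := congrArg Complex.re h
  simp at this
  have := s_pos
  linarith
lemma n1 : χ 1 ≠ 0 := by
  intro h
  have := congrArg Complex.re h
  simp at this
  have := s_pos
  linarith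
lemma n2 : χ 2 ≠ 0 := by
  intro h
  have := congrArg Complex.re h
  simp at this

lemma al_lo : 0.8837 < al := by unfold al; linarith [ρ_lo, γ_ub]
lemma al_hi : al < 0.8841 := by unfold al; linarith [ρ_hi, γ_lb]
lemma be_lo : 0.4141 < be := by unfold be; linarith [σ_lo, γ_ub]
lemma be_hi : be < 0.4144 := by unfold be; linarith [σ_hi, γ_lb]

lemma K2_pos : 0 < 12 * ρ * σ * (s + 2) - 6 * σ * al + 4 * ρ * be := by
  have h1 := ρ_lo; have h2 := σ_lo; have h3 := s_lo; have h4 := al_hi; have h5 := be_lo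
  have h6 := ρ_pos; have h7 := σ_pos
  have e1 : 0.39 < ρ * σ := by nlinarith
  have e2 : 0 < ρ * be := mul_pos h6 (by linarith)
  have e3 : σ * al < 0.6 := by
    have := σ_hi
    nlinarith [al_lo]
  nlinarith

lemma K4_pos : 0 < 6 * ρ * σ + 3 * σ * al - 2 * ρ * be * (s + 2) := by
  have h1 := ρ_lo; have h2 := σ_lo; have h3 := s_hi; have h4 := al_lo; have h5 := be_hi
  have h6 := ρ_pos; have h7 := σ_pos; have h8 := ρ_hi
  have e1 : 0.39 < ρ * σ := by nlinarith
  have e2 : ρ * be < 0.26 := by nlinarith [be_lo]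
  have e3 : 0.5 < σ * al := by nlinarith
  have e4 : ρ * be * (s + 2) ≤ 0.26 * (s + 2) :=
    mul_le_mul_of_nonneg_right e2.le (by linarith [s_pos])
  linarith

/-- the first-order linear system has a one-dimensional solution space -/
theorem solveH {H : Idx → Idx → ℝ} (hH : Supp H) (hK : BilK H) :
    (∀ k, dd H k = 0) ∧ ∃ t : ℝ, (∀ k, ff H k = t * co (6 * k)) ∧
      (∀ k, aa H k = -(t / (4 * ρ)) * co (6 * k)) ∧ (∀ k, bb H k = t / (6 * σ) * co (6 * k)) := by
  have hρ := ρ_pos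
  have hσ := σ_pos
  have hs := s_pos
  have hρC : (ρ : ℂ) ≠ 0 := by exact_mod_cast hρ.ne'
  have hσC : (σ : ℂ) ≠ 0 := by exact_mod_cast hσ.ne'
  -- j = 0
  have J0 : ft (dd H) 0 = 0 ∧ ft (ff H) 0 = 0 ∧ ft (aa H) 0 = 0 ∧ ft (bb H) 0 = 0 := by
    have E1 := eqn hH hK adm1 adm11
    have E2 := eqn hH hK adm2 adm10
    have E3 := eqn hH hK adm3 adm9
    have E4 := eqn hH hK adm4 adm8
    rw [show (1 : ZMod 12) + 11 = 0 by decide, show (6 : ZMod 12) * 11 = 6 by decide, x11_1, χ6] at E1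
    rw [show (2 : ZMod 12) + 10 = 0 by decide, show (6 : ZMod 12) * 10 = 0 by decide, x10_2, χ_zero] at E2
    rw [show (3 : ZMod 12) + 9 = 0 by decide, show (6 : ZMod 12) * 9 = 6 by decide, x9_3, χ6] at E3
    rw [show (4 : ZMod 12) + 8 = 0 by decide, show (6 : ZMod 12) * 8 = 0 by decide, x8_4, χ_zero] at E4
    push_cast at E1 E2 E3 E4
    have hD : ft (dd H) 0 = 0 := by
      have h1 : ((s : ℂ) + 1) * ft (dd H) 0 = 0 := by linear_combination E1 + E2
      rcases mul_eq_zero.mp h1 with h | h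
      · exfalso
        have : (s : ℝ) + 1 = 0 := by exact_mod_cast h
        linarith
      · exact h
    have hF : ft (ff H) 0 = 0 := by rw [hD] at E2; linear_combination E2
    refine ⟨hD, hF, ?_, ?_⟩
    · rw [hD, hF] at E4
      have : (ρ : ℂ) * ft (aa H) 0 = 0 := by linear_combination (1 / 8) * E4
      exact (mul_eq_zero.mp this).resolve_left hρC
    · rw [hF] at E3
      have : (σ : ℂ) * ft (bb H) 0 = 0 := by linear_combination (1 / 6) * E3
      exact (mul_eq_zero.mp this).resolve_left hσC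
  -- j = 1
  have J1 : ft (dd H) 1 = 0 ∧ ft (ff H) 1 = 0 ∧ ft (aa H) 1 = 0 ∧ ft (bb H) 1 = 0 := by
    have hF := ff_odd hH 1 (by rw [show (6 : ZMod 12) * 1 = 6 by decide, χ6])
    have E1 := eqn hH hK adm11 adm2
    have E2 := eqn hH hK adm10 adm3
    have E3 := eqn hH hK adm9 adm4
    rw [show (11 : ZMod 12) + 2 = 1 by decide, hF] at E1
    rw [show (10 : ZMod 12) + 3 = 1 by decide, hF] at E2
    rw [show (9 : ZMod 12) + 4 = 1 by decide, hF] at E3
    push_cast at E1 E2 E3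
    have hD : ft (dd H) 1 = 0 := by
      have h1 : (χ 2 + χ 11) * ft (dd H) 1 = 0 := by linear_combination E1
      exact (mul_eq_zero.mp h1).resolve_left n2_11
    have hB : ft (bb H) 1 = 0 := by
      rw [hD] at E2
      have : (σ : ℂ) * ft (bb H) 1 = 0 := by linear_combination (1 / 3) * E2
      exact (mul_eq_zero.mp this).resolve_left hσC
    refine ⟨hD, hF, ?_, hB⟩
    rw [hD, hB] at E3
    have : (ρ : ℂ) * ft (aa H) 1 = 0 := by linear_combination (1 / 4) * E3
    exact (mul_eq_zero.mp this).resolve_left hρC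
  -- j = 2
  have J2 : ft (dd H) 2 = 0 ∧ ft (ff H) 2 = 0 ∧ ft (aa H) 2 = 0 ∧ ft (bb H) 2 = 0 := by
    have E1 := eqn hH hK adm1 adm1
    have E2 := eqn hH hK adm11 adm3
    have E3 := eqn hH hK adm10 adm4
    have E4 := eqn hH hK adm0 adm2
    rw [show (1 : ZMod 12) + 1 = 2 by decide, show (6 : ZMod 12) * 1 = 6 by decide, χ6] at E1
    rw [show (11 : ZMod 12) + 3 = 2 by decide, show (6 : ZMod 12) * 3 = 6 by decide, χ6, x3_11] at E2
    rw [show (10 : ZMod 12) + 4 = 2 by decide, show (6 : ZMod 12) * 4 = 0 by decide, χ_zero, x4_10] at E3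
    rw [show (0 : ZMod 12) + 2 = 2 by decide, show (6 : ZMod 12) * 2 = 0 by decide, χ_zero, x2_0] at E4
    push_cast at E1 E2 E3 E4
    have hD : ft (dd H) 2 = 0 := by
      have h1 : (((12 * ρ * σ * (s + 2) - 6 * σ * al + 4 * ρ * be : ℝ) : ℂ) * χ 1) * ft (dd H) 2 = 0 := by
        push_cast
        linear_combination (12 * (ρ : ℂ) * σ) * E4 + (-12 * (ρ : ℂ) * σ * (-1) + 4 * ρ * be * 1 - 3 * σ * al) * E1
          + (-4 * (ρ : ℂ) * be) * E2 - 3 * σ * al * E3
      rcases mul_eq_zero.mp h1 with h | h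
      · rcases mul_eq_zero.mp h with h | h
        · exact absurd (by exact_mod_cast h) K2_pos.ne'
        · exact absurd h n1
      · exact h
    rw [hD] at E1 E2 E3
    have hF : ft (ff H) 2 = 0 := by linear_combination -E1
    rw [hF] at E2 E3
    refine ⟨hD, hF, ?_, ?_⟩
    · have : (ρ : ℂ) * ft (aa H) 2 = 0 := by linear_combination (1 / 4) * E3
      exact (mul_eq_zero.mp this).resolve_left hρC
    · have : (σ : ℂ) * ft (bb H) 2 = 0 := by linear_combination (1 / 3) * E2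
      exact (mul_eq_zero.mp this).resolve_left hσC
  -- j = 3
  have J3 : ft (dd H) 3 = 0 ∧ ft (ff H) 3 = 0 ∧ ft (aa H) 3 = 0 ∧ ft (bb H) 3 = 0 := by
    have hF := ff_odd hH 3 (by rw [show (6 : ZMod 12) * 3 = 6 by decide, χ6])
    have E1 := eqn hH hK adm1 adm2
    have E2 := eqn hH hK adm11 adm4
    have E3 := eqn hH hK adm0 adm3
    rw [show (1 : ZMod 12) + 2 = 3 by decide, hF] at E1
    rw [show (11 : ZMod 12) + 4 = 3 by decide, hF] at E2
    rw [show (0 : ZMod 12) + 3 = 3 by decide, hF] at E3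
    push_cast at E1 E2 E3
    have hD : ft (dd H) 3 = 0 := by
      have h1 : (χ 2 + χ 1) * ft (dd H) 3 = 0 := by linear_combination E1
      exact (mul_eq_zero.mp h1).resolve_left n2_1
    have hA : ft (aa H) 3 = 0 := by
      rw [hD] at E2
      have : (ρ : ℂ) * ft (aa H) 3 = 0 := by linear_combination (1 / 4) * E2
      exact (mul_eq_zero.mp this).resolve_left hρC
    refine ⟨hD, hF, hA, ?_⟩
    rw [hD, hA] at E3
    have : ((be + 3 * σ : ℝ) : ℂ) * ft (bb H) 3 = 0 := by push_cast; linear_combination E3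
    rcases mul_eq_zero.mp this with h | h
    · exfalso
      have h2 : be + 3 * σ = 0 := by exact_mod_cast h
      linarith [be_lo]
    · exact h
  -- j = 4
  have J4 : ft (dd H) 4 = 0 ∧ ft (ff H) 4 = 0 ∧ ft (aa H) 4 = 0 ∧ ft (bb H) 4 = 0 := by
    have E1 := eqn hH hK adm2 adm2
    have E2 := eqn hH hK adm1 adm3
    have E3 := eqn hH hK adm8 adm8
    have E4 := eqn hH hK adm0 adm4
    rw [show (2 : ZMod 12) + 2 = 4 by decide, show (6 : ZMod 12) * 2 = 0 by decide, χ_zero] at E1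
    rw [show (1 : ZMod 12) + 3 = 4 by decide, show (6 : ZMod 12) * 3 = 6 by decide, χ6, x3_1] at E2
    rw [show (8 : ZMod 12) + 8 = 4 by decide, show (6 : ZMod 12) * 8 = 0 by decide, χ_zero, x8] at E3
    rw [show (0 : ZMod 12) + 4 = 4 by decide, show (6 : ZMod 12) * 4 = 0 by decide, χ_zero, x4_0] at E4
    push_cast at E1 E2 E3 E4
    have hD : ft (dd H) 4 = 0 := by
      have h1 : (((6 * ρ * σ + 3 * σ * al - 2 * ρ * be * (s + 2) : ℝ) : ℂ) * χ 2) * ft (dd H) 4 = 0 := by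
        push_cast
        linear_combination (6 * (ρ : ℂ) * σ) * E4 + (-2 * (ρ : ℂ) * be) * E2 +
          (-(3 / 4) * (σ : ℂ) * (al + 4 * ρ)) * E3 +
          (-6 * (ρ : ℂ) * σ - 2 * ρ * be + (3 / 4) * σ * (al + 4 * ρ)) * E1
      rcases mul_eq_zero.mp h1 with h | h
      · rcases mul_eq_zero.mp h with h | h
        · exact absurd (by exact_mod_cast h) K4_pos.ne'
        · exact absurd h n2
      · exact h
    rw [hD] at E1 E2 E3
    have hF : ft (ff H) 4 = 0 := by linear_combination E1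
    rw [hF] at E2 E3
    refine ⟨hD, hF, ?_, ?_⟩
    · have : (ρ : ℂ) * ft (aa H) 4 = 0 := by linear_combination (1 / 8) * E3
      exact (mul_eq_zero.mp this).resolve_left hρC
    · have : (σ : ℂ) * ft (bb H) 4 = 0 := by linear_combination (1 / 3) * E2
      exact (mul_eq_zero.mp this).resolve_left hσC
  -- j = 5
  have J5 : ft (dd H) 5 = 0 ∧ ft (ff H) 5 = 0 ∧ ft (aa H) 5 = 0 ∧ ft (bb H) 5 = 0 := by
    have hF := ff_odd hH 5 (by rw [show (6 : ZMod 12) * 5 = 6 by decide, χ6])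
    have E1 := eqn hH hK adm1 adm4
    have E2 := eqn hH hK adm2 adm3
    have E3 := eqn hH hK adm9 adm8
    rw [show (1 : ZMod 12) + 4 = 5 by decide, hF] at E1
    rw [show (2 : ZMod 12) + 3 = 5 by decide, hF] at E2
    rw [show (9 : ZMod 12) + 8 = 5 by decide, hF] at E3
    push_cast at E1 E2 E3
    have hD : ft (dd H) 5 = 0 := by
      have h1 : (χ 8 + χ 9 - χ 4 - χ 1 - χ 3 - χ 2) * ft (dd H) 5 = 0 := by
        linear_combination E3 - E1 - E2
      exact (mul_eq_zero.mp h1).resolve_left n5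
    rw [hD] at E1 E2
    refine ⟨hD, hF, ?_, ?_⟩
    · have : (ρ : ℂ) * ft (aa H) 5 = 0 := by linear_combination (1 / 4) * E1
      exact (mul_eq_zero.mp this).resolve_left hρC
    · have : (σ : ℂ) * ft (bb H) 5 = 0 := by linear_combination (1 / 3) * E2
      exact (mul_eq_zero.mp this).resolve_left hσC
  -- j = 6
  have J6 : ft (dd H) 6 = 0 ∧ ft (ff H) 6 + 4 * ρ * ft (aa H) 6 = 0 ∧
      ft (ff H) 6 = 6 * σ * ft (bb H) 6 := by
    have E1 := eqn hH hK adm2 adm4
    have E2 := eqn hH hK adm10 adm8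
    have E3 := eqn hH hK adm3 adm3
    have E4 := eqn hH hK adm9 adm9
    rw [show (2 : ZMod 12) + 4 = 6 by decide, show (6 : ZMod 12) * 4 = 0 by decide, χ_zero] at E1
    rw [show (10 : ZMod 12) + 8 = 6 by decide, show (6 : ZMod 12) * 8 = 0 by decide, χ_zero, x8_10] at E2
    rw [show (3 : ZMod 12) + 3 = 6 by decide, show (6 : ZMod 12) * 3 = 6 by decide, χ6] at E3
    push_cast at E1 E2 E3
    have hD : ft (dd H) 6 = 0 := by
      have h1 : (χ 4 + χ 2) * ft (dd H) 6 = 0 := by linear_combination (1 / 2) * (E1 - E2)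
      exact (mul_eq_zero.mp h1).resolve_left n4_2
    rw [hD] at E1 E3
    refine ⟨hD, by linear_combination E1, by linear_combination -E3⟩
  have neg0 : ∀ g : ZMod 12 → ℝ, ∀ j j' : ZMod 12, j' = -j → ft g j = 0 → ft g j' = 0 := by
    intro g j j' h1 h2
    rw [h1, ft_neg, h2, map_zero]
  have main : ∀ g : ZMod 12 → ℝ, ft g 0 = 0 → ft g 1 = 0 → ft g 2 = 0 → ft g 3 = 0 → ft g 4 = 0 →
      ft g 5 = 0 → ∀ j, j ≠ 6 → ft g j = 0 := by
    intro g h0 h1 h2 h3 h4 h5 j hj
    have hc : j = 0 ∨ j = 1 ∨ j = 2 ∨ j = 3 ∨ j = 4 ∨ j = 5 ∨ j = 7 ∨ j = 8 ∨ j = 9 ∨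
      j = 10 ∨ j = 11 := by revert j; decide
    rcases hc with h | h | h | h | h | h | h | h | h | h | h
    · rw [h]; exact h0
    · rw [h]; exact h1
    · rw [h]; exact h2
    · rw [h]; exact h3
    · rw [h]; exact h4
    · rw [h]; exact h5
    · rw [h]; exact neg0 g 5 7 (by decide) h5
    · rw [h]; exact neg0 g 4 8 (by decide) h4
    · rw [h]; exact neg0 g 3 9 (by decide) h3
    · rw [h]; exact neg0 g 2 10 (by decide) h2
    · rw [h]; exact neg0 g 1 11 (by decide) h1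
  have hd := main (dd H) J0.1 J1.1 J2.1 J3.1 J4.1 J5.1
  have hf := main (ff H) J0.2.1 J1.2.1 J2.2.1 J3.2.1 J4.2.1 J5.2.1
  have ha := main (aa H) J0.2.2.1 J1.2.2.1 J2.2.2.1 J3.2.2.1 J4.2.2.1 J5.2.2.1
  have hb := main (bb H) J0.2.2.2 J1.2.2.2 J2.2.2.2 J3.2.2.2 J4.2.2.2 J5.2.2.2
  refine ⟨ft_zero _ (fun j => ?_), ff H 0, ?_, ?_, ?_⟩
  · by_cases hj : j = 6
    · rw [hj]; exact J6.1
    · exact hd j hj
  · exact (ft_six _ hf).1
  · intro k
    rw [(ft_six _ ha).1 k]
    have h1 := J6.2.1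
    rw [(ft_six _ hf).2, (ft_six _ ha).2] at h1
    have h2 : 12 * ff H 0 + 4 * ρ * (12 * aa H 0) = 0 := by exact_mod_cast h1
    have h3 : aa H 0 = -(ff H 0 / (4 * ρ)) := by
      field_simp
      linarith
    rw [h3]
  · intro k
    rw [(ft_six _ hb).1 k]
    have h1 := J6.2.2
    rw [(ft_six _ hf).2, (ft_six _ hb).2] at h1
    have h2 : 12 * ff H 0 = 6 * σ * (12 * bb H 0) := by exact_mod_cast h1
    have h3 : bb H 0 = ff H 0 / (6 * σ) := by
      field_simp
      linarith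
    rw [h3]

end

end H16Jam
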