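import Pool.Agent.H16R3.Jam.Solve

set_option autoImplicit false

namespace H16Jam

open scoped BigOperators RealInnerProductSpace

noncomputable section

lemma p2_0 : (2 : ZMod 12) * 0 = 0 := by decide
lemma p2_1 : (2 : ZMod 12) * 1 = 2 := by decide
lemma p2_2 : (2 : ZMod 12) * 2 = 4 := by decide
lemma p2_3 : (2 : ZMod 12) * 3 = 6 := by decide
lemma p2_4 : (2 : ZMod 12) * 4 = 8 := by decide
lemma p2_5 : (2 : ZMod 12) * 5 = 10 := by decide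
lemma p2_6 : (2 : ZMod 12) * 6 = 0 := by decide
lemma p2_7 : (2 : ZMod 12) * 7 = 2 := by decide
lemma p2_8 : (2 : ZMod 12) * 8 = 4 := by decide
lemma p2_9 : (2 : ZMod 12) * 9 = 6 := by decide
lemma p2_10 : (2 : ZMod 12) * 10 = 8 := by decide
lemma p2_11 : (2 : ZMod 12) * 11 = 10 := by decide
lemma p3_0 : (3 : ZMod 12) * 0 = 0 := by decide
lemma p3_1 : (3 : ZMod 12) * 1 = 3 := by decide
lemma p3_2 : (3 : ZMod 12) * 2 = 6 := by decide
lemma p3_3 : (3 : ZMod 12) * 3 = 9 := by decide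
lemma p3_4 : (3 : ZMod 12) * 4 = 0 := by decide
lemma p3_5 : (3 : ZMod 12) * 5 = 3 := by decide
lemma p3_6 : (3 : ZMod 12) * 6 = 6 := by decide
lemma p3_7 : (3 : ZMod 12) * 7 = 9 := by decide
lemma p3_8 : (3 : ZMod 12) * 8 = 0 := by decide
lemma p3_9 : (3 : ZMod 12) * 9 = 3 := by decide
lemma p3_10 : (3 : ZMod 12) * 10 = 6 := by decide
lemma p3_11 : (3 : ZMod 12) * 11 = 9 := by decide
lemma p4_0 : (4 : ZMod 12) * 0 = 0 := by decide
lemma p4_1 : (4 : ZMod 12) * 1 = 4 := by decide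
lemma p4_2 : (4 : ZMod 12) * 2 = 8 := by decide
lemma p4_3 : (4 : ZMod 12) * 3 = 0 := by decide
lemma p4_4 : (4 : ZMod 12) * 4 = 4 := by decide
lemma p4_5 : (4 : ZMod 12) * 5 = 8 := by decide
lemma p4_6 : (4 : ZMod 12) * 6 = 0 := by decide
lemma p4_7 : (4 : ZMod 12) * 7 = 4 := by decide
lemma p4_8 : (4 : ZMod 12) * 8 = 8 := by decide
lemma p4_9 : (4 : ZMod 12) * 9 = 0 := by decide
lemma p4_10 : (4 : ZMod 12) * 10 = 4 := by decide
lemma p4_11 : (4 : ZMod 12) * 11 = 8 := by decide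
lemma p5_0 : (5 : ZMod 12) * 0 = 0 := by decide
lemma p5_1 : (5 : ZMod 12) * 1 = 5 := by decide
lemma p5_2 : (5 : ZMod 12) * 2 = 10 := by decide
lemma p5_3 : (5 : ZMod 12) * 3 = 3 := by decide
lemma p5_4 : (5 : ZMod 12) * 4 = 8 := by decide
lemma p5_5 : (5 : ZMod 12) * 5 = 1 := by decide
lemma p5_6 : (5 : ZMod 12) * 6 = 6 := by decide
lemma p5_7 : (5 : ZMod 12) * 7 = 11 := by decide
lemma p5_8 : (5 : ZMod 12) * 8 = 4 := by decide
lemma p5_9 : (5 : ZMod 12) * 9 = 9 := by decide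
lemma p5_10 : (5 : ZMod 12) * 10 = 2 := by decide
lemma p5_11 : (5 : ZMod 12) * 11 = 7 := by decide
lemma p6_0 : (6 : ZMod 12) * 0 = 0 := by decide
lemma p6_1 : (6 : ZMod 12) * 1 = 6 := by decide
lemma p6_2 : (6 : ZMod 12) * 2 = 0 := by decide
lemma p6_3 : (6 : ZMod 12) * 3 = 6 := by decide
lemma p6_4 : (6 : ZMod 12) * 4 = 0 := by decide
lemma p6_5 : (6 : ZMod 12) * 5 = 6 := by decide
lemma p6_6 : (6 : ZMod 12) * 6 = 0 := by decide
lemma p6_7 : (6 : ZMod 12) * 7 = 6 := by decide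
lemma p6_8 : (6 : ZMod 12) * 8 = 0 := by decide
lemma p6_9 : (6 : ZMod 12) * 9 = 6 := by decide
lemma p6_10 : (6 : ZMod 12) * 10 = 0 := by decide
lemma p6_11 : (6 : ZMod 12) * 11 = 6 := by decide

def θ3 : ℝ := -(be / (6 * σ))
def θ4 : ℝ := -(al / (8 * ρ))
def θ1 : ℝ := (-1 / 2 + 2 * θ4 - θ3) * (s - 1) / 2
def θ2 : ℝ := θ1 - 1 / 2 + θ3 - θ4

lemma θ3_mul : 6 * σ * θ3 = -be := by
  unfold θ3; have := σ_pos; field_simp
lemma θ4_mul : 8 * ρ * θ4 = -al := by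
  unfold θ4; have := ρ_pos; field_simp
lemma θ1_eq : s * θ1 + θ2 = -1 + θ4 := by
  unfold θ2 θ1; have := s_sq; linear_combination ((-1 / 2 + 2 * θ4 - θ3) / 2) * this
lemma θ3_lo : -0.1063 < θ3 := by
  have h := θ3_mul; have h1 := σ_lo; have h2 := be_hi; nlinarith
lemma θ3_hi : θ3 < -0.1061 := by
  have h := θ3_mul; have h1 := σ_hi; have h2 := be_lo; have h3 := σ_pos; nlinarith
lemma θ4_lo : -0.1827 < θ4 := by
  have h := θ4_mul; have h1 := ρ_lo; have h2 := al_hi; nlinarith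
lemma θ4_hi : θ4 < -0.1825 := by
  have h := θ4_mul; have h1 := ρ_hi; have h2 := al_lo; have h3 := ρ_pos; nlinarith
lemma θ1_lo : -0.2780 < θ1 := by
  unfold θ1; have h1 := θ4_lo; have h2 := θ3_hi; have h3 := s_hi; have h4 := s_lo; nlinarith
lemma θ1_hi : θ1 < -0.2777 := by
  unfold θ1; have h1 := θ4_hi; have h2 := θ3_lo; have h3 := s_lo; nlinarith
lemma θ2_lo : -0.7019 < θ2 := by
  unfold θ2; linarith [θ1_lo, θ3_lo, θ4_hi]
lemma θ2_hi : θ2 < -0.7011 := by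
  unfold θ2; linarith [θ1_hi, θ3_hi, θ4_lo]

/-- the stress matrix -/
def Ω (i j : Idx) : ℝ :=
  kv co 0 al be i * kv co 0 al be j +
  2 * θ1 * (kv co 1 0 0 i * kv co 1 0 0 j + kv si 1 0 0 i * kv si 1 0 0 j) +
  2 * θ2 * (kv co 2 0 0 i * kv co 2 0 0 j + kv si 2 0 0 i * kv si 2 0 0 j) +
  2 * θ3 * (kv co 3 0 (3 * σ) i * kv co 3 0 (3 * σ) j + kv si 3 0 (3 * σ) i * kv si 3 0 (3 * σ) j) +
  2 * θ4 * (kv co 4 (4 * ρ) 0 i * kv co 4 (4 * ρ) 0 j + kv si 4 (4 * ρ) 0 i * kv si 4 (4 * ρ) 0 j)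

lemma Ω_symm (i j : Idx) : Ω i j = Ω j i := by unfold Ω; ring

lemma Ω_eq (i : Idx) : ∑ j, Ω i j • xx j = 0 := by
  have c1 := kerC 1 0 0 (Or.inl ⟨rfl, rfl, rfl⟩)
  have s1 := kerS 1 0 0 (Or.inl ⟨rfl, rfl, rfl⟩)
  have c2 := kerC 2 0 0 (Or.inr (Or.inl ⟨rfl, rfl, rfl⟩))
  have s2 := kerS 2 0 0 (Or.inr (Or.inl ⟨rfl, rfl, rfl⟩))
  have c3 := kerC 3 0 (3 * σ) (Or.inr (Or.inr (Or.inl ⟨rfl, rfl, rfl⟩)))
  have s3 := kerS 3 0 (3 * σ) (Or.inr (Or.inr (Or.inl ⟨rfl, rfl, rfl⟩)))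
  have c4 := kerC 4 (4 * ρ) 0 (Or.inr (Or.inr (Or.inr ⟨rfl, rfl, rfl⟩)))
  have s4 := kerS 4 (4 * ρ) 0 (Or.inr (Or.inr (Or.inr ⟨rfl, rfl, rfl⟩)))
  have h : ∀ j, Ω i j • xx j = kv co 0 al be i • (kv co 0 al be j • xx j) +
      (2 * θ1 * kv co 1 0 0 i) • (kv co 1 0 0 j • xx j) + (2 * θ1 * kv si 1 0 0 i) • (kv si 1 0 0 j • xx j) +
      (2 * θ2 * kv co 2 0 0 i) • (kv co 2 0 0 j • xx j) + (2 * θ2 * kv si 2 0 0 i) • (kv si 2 0 0 j • xx j) +
      (2 * θ3 * kv co 3 0 (3 * σ) i) • (kv co 3 0 (3 * σ) j • xx j) +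
      (2 * θ3 * kv si 3 0 (3 * σ) i) • (kv si 3 0 (3 * σ) j • xx j) +
      (2 * θ4 * kv co 4 (4 * ρ) 0 i) • (kv co 4 (4 * ρ) 0 j • xx j) +
      (2 * θ4 * kv si 4 (4 * ρ) 0 i) • (kv si 4 (4 * ρ) 0 j • xx j) := by
    intro j
    unfold Ω
    module
  simp only [h, Finset.sum_add_distrib, ← Finset.smul_sum, ker0, c1, s1, c2, s2, c3, s3, c4, s4, smul_zero,
    add_zero]

/-- the W-W stress as a function of the difference -/
def oW (d : ZMod 12) : ℝ := 1 + 2 * θ1 * co d + 2 * θ2 * co (2 * d) + 2 * θ3 * co (3 * d) +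
  2 * θ4 * co (4 * d)

/-- the W-W inner product as a function of the difference -/
def gW (d : ZMod 12) : ℝ := ee * (1 - s / 3) * co (5 * d) + ee / 2 * (1 - s / 3) * co (3 * d) +
    ee / 3 * (s - 1) * co (4 * d) + ee * (s - 1) / 4 * co (6 * d) + (cc - ee * (s - 1) / 12)

lemma ipWW' (k l : ZMod 12) : ⟪xx (Sum.inl k), xx (Sum.inl l)⟫ = gW (k - l) := ipWW k l

lemma ΩWW (k l : ZMod 12) : Ω (Sum.inl k) (Sum.inl l) = oW (k - l) := by
  unfold Ω oW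
  simp only [kv, zero_mul, co_0, co_ms]
  have h := co_sub k l
  simp only [one_mul]
  rw [h]

lemma ΩWR (k : ZMod 12) (i : ZMod 3) : Ω (Sum.inl k) (Sum.inr (Sum.inl i)) =
    al * (1 - co (4 * (k - e3 i))) := by
  unfold Ω
  simp only [kv, zero_mul, co_0, co_ms]
  linear_combination (co (4 * k) * co (4 * e3 i) + si (4 * k) * si (4 * e3 i)) * θ4_mul

lemma ΩWS (k : ZMod 12) (j : ZMod 4) : Ω (Sum.inl k) (Sum.inr (Sum.inr j)) =
    be * (1 - co (3 * (k - e4 j))) := by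
  unfold Ω
  simp only [kv, zero_mul, co_0, co_ms]
  linear_combination (co (3 * k) * co (3 * e4 j) + si (3 * k) * si (3 * e4 j)) * θ3_mul

lemma ΩRR (i l : ZMod 3) : Ω (Sum.inr (Sum.inl i)) (Sum.inr (Sum.inl l)) =
    al * (al - 4 * ρ * co (4 * (e3 i - e3 l))) := by
  unfold Ω
  simp only [kv, zero_mul, co_0, co_ms]
  linear_combination (4 * ρ) * (co (4 * e3 i) * co (4 * e3 l) + si (4 * e3 i) * si (4 * e3 l)) * θ4_mul

lemma ΩSS (i l : ZMod 4) : Ω (Sum.inr (Sum.inr i)) (Sum.inr (Sum.inr l)) =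
    be * (be - 3 * σ * co (3 * (e4 i - e4 l))) := by
  unfold Ω
  simp only [kv, zero_mul, co_0, co_ms]
  linear_combination (3 * σ) * (co (3 * e4 i) * co (3 * e4 l) + si (3 * e4 i) * si (3 * e4 l)) * θ3_mul

lemma ΩRS (i : ZMod 3) (l : ZMod 4) : Ω (Sum.inr (Sum.inl i)) (Sum.inr (Sum.inr l)) = al * be := by
  unfold Ω
  simp only [kv, zero_mul, co_0]
  ring

lemma pairW : ∀ d : ZMod 12, d ≠ 0 → (0 < oW d ∧ gW d = cc) ∨ (oW d = 0 ∧ gW d < cc ∧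
    (d = 1 ∨ d = 11 ∨ d = 6)) := by
  have t1 := θ1_lo; have t2 := θ1_hi; have t3 := θ2_lo; have t4 := θ2_hi
  have t5 := θ3_lo; have t6 := θ3_hi; have t7 := θ4_lo; have t8 := θ4_hi
  have e1 := ee_lo; have e2 := s_lo; have e3 := s_hi; have hs := s_sq
  have he : ee * (s - 1) = ee * s - ee := by ring
  have hes : 0 < ee * (s - 1) := mul_pos (by linarith) (by linarith)
  have hes2 : 0 < ee * (2 - s) := mul_pos (by linarith) (by linarith)
  have hth := θ1_eq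
  have hth2 : θ2 = θ1 - 1 / 2 + θ3 - θ4 := rfl
  have hst : s * θ1 ≤ 1.73205 * θ1 := by nlinarith
  apply zcases <;> intro hd <;> simp only [ne_eq, not_true_eq_false] at hd <;>
    simp only [oW, gW, p2_0, p2_1, p2_2, p2_3, p2_4, p2_5, p2_6, p2_7, p2_8, p2_9, p2_10, p2_11, p3_0, p3_1, p3_2, p3_3, p3_4, p3_5, p3_6, p3_7, p3_8, p3_9, p3_10, p3_11, p4_0, p4_1, p4_2, p4_3, p4_4, p4_5, p4_6, p4_7, p4_8, p4_9, p4_10, p4_11, p5_0, p5_1, p5_2, p5_3, p5_4, p5_5, p5_6, p5_7, p5_8, p5_9, p5_10, p5_11, p6_0, p6_1, p6_2, p6_3, p6_4, p6_5, p6_6, p6_7, p6_8, p6_9, p6_10, p6_11, co_0, co_1, co_2, co_3,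
      co_4, co_5, co_6, co_7, co_8, co_9, co_10, co_11]
  · right
    refine ⟨by linear_combination hth, ?_, by simp⟩
    nlinarith
  · left; refine ⟨by linarith, by ring⟩
  · left; refine ⟨by linarith, by ring⟩
  · left; refine ⟨by linarith, by ring⟩
  · left; refine ⟨by linarith, by linear_combination (-ee / 6) * hs⟩
  · right
    refine ⟨by rw [hth2]; ring, ?_, by simp⟩
    nlinarith
  · left; refine ⟨by linarith, by linear_combination (-ee / 6) * hs⟩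
  · left; refine ⟨by linarith, by ring⟩
  · left; refine ⟨by linarith, by ring⟩
  · left; refine ⟨by linarith, by ring⟩
  · right
    refine ⟨by linear_combination hth, ?_, by simp⟩
    nlinarith

lemma pairR : ∀ (k : ZMod 12) (i : ZMod 3), (i = Rk k ∧ 4 * (k - e3 i) = 0) ∨
    (i ≠ Rk k ∧ (4 * (k - e3 i) = 4 ∨ 4 * (k - e3 i) = 8)) := by decide

lemma pairS : ∀ (k : ZMod 12) (j : ZMod 4), (j = Sk k ∧ 3 * (k - e4 j) = 0 ∧ 6 * (k - e4 j) = 0) ∨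
    (j ≠ Sk k ∧ ((3 * (k - e4 j) = 3 ∧ 6 * (k - e4 j) = 6) ∨ (3 * (k - e4 j) = 6 ∧ 6 * (k - e4 j) = 0) ∨
      (3 * (k - e4 j) = 9 ∧ 6 * (k - e4 j) = 6))) := by decide

lemma pairRR : ∀ (i l : ZMod 3), i = l ∨ (4 * (e3 i - e3 l) = 4 ∨ 4 * (e3 i - e3 l) = 8) := by decide

lemma pairSS : ∀ (i l : ZMod 4), i = l ∨ ((3 * (e4 i - e4 l) = 3 ∧ 6 * (e4 i - e4 l) = 6) ∨
    (3 * (e4 i - e4 l) = 6 ∧ 6 * (e4 i - e4 l) = 0) ∨
      (3 * (e4 i - e4 l) = 9 ∧ 6 * (e4 i - e4 l) = 6)) := by decide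

lemma WRc (k : ZMod 12) (i : ZMod 3) (h : i ≠ Rk k) : 0 < Ω (Sum.inl k) (Sum.inr (Sum.inl i)) ∧
    ⟪xx (Sum.inl k), xx (Sum.inr (Sum.inl i))⟫ = cc := by
  rw [ΩWR, ipWR]
  have h1 := al_lo
  rcases pairR k i with ⟨h2, -⟩ | ⟨-, h2 | h2⟩
  · exact absurd h2 h
  · rw [h2]; simp only [co_4]; constructor
    · nlinarith
    · ring
  · rw [h2]; simp only [co_8]; constructor
    · nlinarith
    · ring

lemma WRn (k : ZMod 12) (i : ZMod 3) (h : i = Rk k) : Ω (Sum.inl k) (Sum.inr (Sum.inl i)) = 0 ∧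
    ⟪xx (Sum.inl k), xx (Sum.inr (Sum.inl i))⟫ < cc := by
  rw [ΩWR, ipWR]
  rcases pairR k i with ⟨-, h2⟩ | ⟨h2, -⟩
  · rw [h2]; simp only [co_0]; constructor
    · ring
    · have := mul_pos (show 0 < ee by linarith [ee_lo]) ρ_pos
      nlinarith
  · exact absurd h h2

lemma WSc (k : ZMod 12) (j : ZMod 4) (h : j ≠ Sk k) : 0 < Ω (Sum.inl k) (Sum.inr (Sum.inr j)) ∧
    ⟪xx (Sum.inl k), xx (Sum.inr (Sum.inr j))⟫ = cc := by
  rw [ΩWS, ipWS]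
  have h1 := be_lo
  rcases pairS k j with ⟨h2, -⟩ | ⟨-, ⟨h2, h3⟩ | ⟨h2, h3⟩ | ⟨h2, h3⟩⟩
  · exact absurd h2 h
  · rw [h2, h3]; simp only [co_3, co_6]; constructor
    · nlinarith
    · ring
  · rw [h2, h3]; simp only [co_6, co_0]; constructor
    · nlinarith
    · ring
  · rw [h2, h3]; simp only [co_9, co_6]; constructor
    · nlinarith
    · ring

lemma WSn (k : ZMod 12) (j : ZMod 4) (h : j = Sk k) : Ω (Sum.inl k) (Sum.inr (Sum.inr j)) = 0 ∧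
    ⟪xx (Sum.inl k), xx (Sum.inr (Sum.inr j))⟫ < cc := by
  rw [ΩWS, ipWS]
  rcases pairS k j with ⟨-, h2, h3⟩ | ⟨h2, -⟩
  · rw [h2, h3]; simp only [co_0]; constructor
    · ring
    · have := mul_pos (show 0 < ee by linarith [ee_lo]) σ_pos
      nlinarith
  · exact absurd h h2

lemma RRc (i l : ZMod 3) (h : i ≠ l) : 0 < Ω (Sum.inr (Sum.inl i)) (Sum.inr (Sum.inl l)) ∧
    ⟪xx (Sum.inr (Sum.inl i)), xx (Sum.inr (Sum.inl l))⟫ = cc := by
  rw [ΩRR, ipRR]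
  have h1 := al_lo
  have hρ := ρ_pos
  rcases pairRR i l with h2 | h2 | h2
  · exact absurd h2 h
  · rw [h2]; simp only [co_4]; constructor
    · have : 0 < al - 4 * ρ * (-1 / 2) := by linarith
      exact mul_pos (by linarith) this
    · ring
  · rw [h2]; simp only [co_8]; constructor
    · have : 0 < al - 4 * ρ * (-1 / 2) := by linarith
      exact mul_pos (by linarith) this
    · ring

lemma SSc (i l : ZMod 4) (h : i ≠ l) : 0 < Ω (Sum.inr (Sum.inr i)) (Sum.inr (Sum.inr l)) ∧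
    ⟪xx (Sum.inr (Sum.inr i)), xx (Sum.inr (Sum.inr l))⟫ = cc := by
  rw [ΩSS, ipSS]
  have h1 := be_lo
  have hσ := σ_pos
  rcases pairSS i l with h2 | ⟨h2, h3⟩ | ⟨h2, h3⟩ | ⟨h2, h3⟩
  · exact absurd h2 h
  · rw [h2, h3]; simp only [co_3, co_6]; constructor
    · have : 0 < be - 3 * σ * 0 := by linarith
      exact mul_pos (by linarith) this
    · ring
  · rw [h2, h3]; simp only [co_6, co_0]; constructor
    · have : 0 < be - 3 * σ * -1 := by linarith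
      exact mul_pos (by linarith) this
    · ring
  · rw [h2, h3]; simp only [co_9, co_6]; constructor
    · have : 0 < be - 3 * σ * 0 := by linarith
      exact mul_pos (by linarith) this
    · ring

lemma RSc (i : ZMod 3) (l : ZMod 4) : 0 < Ω (Sum.inr (Sum.inl i)) (Sum.inr (Sum.inr l)) ∧
    ⟪xx (Sum.inr (Sum.inl i)), xx (Sum.inr (Sum.inr l))⟫ = cc := by
  rw [ΩRS, ipRS]
  exact ⟨mul_pos (by linarith [al_lo]) (by linarith [be_lo]), rfl⟩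

/-- every pair is a positively stressed contact, or a stress-free non-contact -/
lemma pair_cases (i j : Idx) (hij : i ≠ j) : (0 < Ω i j ∧ ⟪xx i, xx j⟫ = cc) ∨
    (Ω i j = 0 ∧ ⟪xx i, xx j⟫ < cc) := by
  have swap : ∀ i j : Idx, ((0 < Ω i j ∧ ⟪xx i, xx j⟫ = cc) ∨ (Ω i j = 0 ∧ ⟪xx i, xx j⟫ < cc)) →
      ((0 < Ω j i ∧ ⟪xx j, xx i⟫ = cc) ∨ (Ω j i = 0 ∧ ⟪xx j, xx i⟫ < cc)) := by
    intro i j h
    rw [Ω_symm j i, real_inner_comm]; exact h
  have hWR : ∀ k i, (0 < Ω (Sum.inl k) (Sum.inr (Sum.inl i)) ∧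
      ⟪xx (Sum.inl k), xx (Sum.inr (Sum.inl i))⟫ = cc) ∨ (Ω (Sum.inl k) (Sum.inr (Sum.inl i)) = 0 ∧
      ⟪xx (Sum.inl k), xx (Sum.inr (Sum.inl i))⟫ < cc) := by
    intro k i
    by_cases h : i = Rk k
    · exact Or.inr (WRn k i h)
    · exact Or.inl (WRc k i h)
  have hWS : ∀ k i, (0 < Ω (Sum.inl k) (Sum.inr (Sum.inr i)) ∧
      ⟪xx (Sum.inl k), xx (Sum.inr (Sum.inr i))⟫ = cc) ∨ (Ω (Sum.inl k) (Sum.inr (Sum.inr i)) = 0 ∧
      ⟪xx (Sum.inl k), xx (Sum.inr (Sum.inr i))⟫ < cc) := by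
    intro k i
    by_cases h : i = Sk k
    · exact Or.inr (WSn k i h)
    · exact Or.inl (WSc k i h)
  rcases i with k | i | i <;> rcases j with l | j | j
  · have hne : k - l ≠ 0 := by
      intro h; apply hij; rw [sub_eq_zero.mp h]
    rw [ΩWW, ipWW']
    rcases pairW (k - l) hne with h | h
    · exact Or.inl h
    · exact Or.inr ⟨h.1, h.2.1⟩
  · exact hWR k j
  · exact hWS k j
  · exact swap _ _ (hWR l i)
  · exact Or.inl (RRc i j (fun h => hij (by rw [h])))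
  · exact Or.inl (RSc i j)
  · exact swap _ _ (hWS l i)
  · exact Or.inl ⟨by rw [Ω_symm]; exact (RSc j i).1, by rw [real_inner_comm]; exact (RSc j i).2⟩
  · exact Or.inl (SSc i j (fun h => hij (by rw [h])))

lemma xx_norm (i : Idx) : ‖xx i‖ = 1 := by
  have h : ⟪xx i, xx i⟫ = 1 := by
    have hee : ee = 1 - cc := rfl
    have hs := s_sq
    rcases i with k | i | i
    · rw [ipWW', sub_self]
      simp only [gW, mul_zero, co_0]
      rw [hee]; ring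
    · rw [ipRR, sub_self, mul_zero, co_0, hee]; ring
    · rw [ipSS, sub_self, mul_zero, mul_zero, co_0, hee]; ring
  rw [real_inner_self_eq_norm_sq] at h
  have h2 := norm_nonneg (xx i)
  nlinarith

end

end H16Jam
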