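import Pool.Agent.H16R3.Jam.Stress

set_option autoImplicit false

namespace H16Jam

open scoped BigOperators RealInnerProductSpace

noncomputable section

lemma wt_pos : ∀ a, 0 < wt a := by
  have h1 := ee_lo; have h2 := cc_lo; have h3 := s_lo; have h4 := s_hi
  intro a
  fin_cases a <;> simp [wt] <;> nlinarith

def τ1 : ℝ := -(1 / (7 * ee)) * (1 / ρ + 1 / (2 * σ))
def τ2 : ℝ := (1 / (42 * σ) - 1 / (28 * ρ)) / (cc + ee / 7)
def Ξ : ℝ := 7 * ee / 12 * ((3 * σ - 4 * ρ) / 7) * τ1 + (cc + ee / 7) * mu * τ2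
def zz : ℝ := (1 / 8 - Ξ) / (ee * (2 * s - 3) / 6)

lemma ee_pos : 0 < ee := by linarith [ee_lo]

def TVW (k : ZMod 12) : Fin 10 → ℝ := ![-(co k) / (6 * σ * σ * ee), si k / (6 * σ * σ * ee),
  -(co (3 * k)) / (6 * σ * ee), si (3 * k) / (6 * σ * ee), co (2 * k) / (4 * ρ * ee),
  -(si (2 * k)) / (4 * ρ * ee), 1 / (6 * σ * ee), zz, co (6 * k) * τ1, co (6 * k) * τ2]

def TV : Idx → Fin 10 → ℝ
  | Sum.inl k => TVW k
  | Sum.inr _ => fun _ => 0

/-- the extra first-order flex -/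
def vv (i : Idx) : EuclideanSpace ℝ (Fin 10) := vec (TV i)

lemma vv_inr (i) : vv (Sum.inr i) = 0 := by
  ext a
  simp [vv, vec, TV]

lemma E0R : ee / 3 * τ1 + (cc + ee / 7) * τ2 = -(1 / (12 * ρ)) := by
  have h1 := ee_pos; have h2 := ρ_pos; have h3 := σ_pos; have h4 := cc_lo
  have h5 : (cc + ee / 7) * τ2 = 1 / (42 * σ) - 1 / (28 * ρ) := by
    unfold τ2; rw [mul_div_cancel₀]; positivity
  rw [h5]
  unfold τ1
  field_simp
  ring

lemma E0S : -(ee / 4 * τ1) + (cc + ee / 7) * τ2 = 1 / (24 * σ) := by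
  have h1 := ee_pos; have h2 := ρ_pos; have h3 := σ_pos; have h4 := cc_lo
  have h5 : (cc + ee / 7) * τ2 = 1 / (42 * σ) - 1 / (28 * ρ) := by
    unfold τ2; rw [mul_div_cancel₀]; positivity
  rw [h5]
  unfold τ1
  field_simp
  ring

lemma zz_mul : ee * (2 * s - 3) / 6 * zz = 1 / 8 - Ξ := by
  unfold zz
  rw [mul_div_cancel₀]
  have h1 := ee_pos; have h2 := s_lo
  have : 0 < ee * (2 * s - 3) / 6 := by
    apply div_pos (mul_pos h1 (by linarith)) (by norm_num)
  exact this.ne'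

lemma co_shift (a b c' k l : ZMod 12) (h : a * l + b * k = c' * (l - k) + 6 * k) :
    co (a * l) * co (b * k) - si (a * l) * si (b * k) = co (6 * k) * co (c' * (l - k)) := by
  rw [← co_add, h, co_add, si_six]; ring

def PP (d : ZMod 12) : ℝ := -(1 / 6) * co (5 * d) - 1 / 12 * co (3 * d) + 1 / 6 * co (4 * d) +
  (1 / 12 - Ξ) * co (6 * d) + Ξ

lemma xv_WW (l k : ZMod 12) : ⟪xx (Sum.inl l), vv (Sum.inl k)⟫ = co (6 * k) * PP (l - k) := by
  rw [xx, vv, inner_vec, sum10]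
  simp only [TT, TW, TV, TVW, wt, Matrix.cons_val]
  have c1 := co_shift 5 1 5 k l (by ring)
  have c2 := co_shift 3 3 3 k l (by ring)
  have c3 := co_shift 4 2 4 k l (by ring)
  have c4 := co_shift 6 0 6 k l (by ring)
  rw [one_mul] at c1
  simp only [zero_mul, co_0, mul_one, si_0, mul_zero, sub_zero] at c4
  have h1 := ee_pos; have h2 := ρ_pos; have h3 := σ_pos
  have hσ := σ_sq
  have hz := zz_mul
  have e1 : ee * (1 - s / 3) = ee * (σ * σ) := by rw [hσ]
  rw [e1]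
  have t1 : ee * (σ * σ) * (co (5 * l) * (-(co k) / (6 * σ * σ * ee))) +
      ee * (σ * σ) * (si (5 * l) * (si k / (6 * σ * σ * ee))) =
      -(1 / 6) * (co (5 * l) * co k - si (5 * l) * si k) := by field_simp; ring
  have t2 : ee / 2 * (σ * co (3 * l) * (-(co (3 * k)) / (6 * σ * ee))) +
      ee / 2 * (σ * si (3 * l) * (si (3 * k) / (6 * σ * ee))) =
      -(1 / 12) * (co (3 * l) * co (3 * k) - si (3 * l) * si (3 * k)) := by field_simp; ring
  have t3 : 2 * ee / 3 * (ρ * co (4 * l) * (co (2 * k) / (4 * ρ * ee))) +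
      2 * ee / 3 * (ρ * si (4 * l) * (-(si (2 * k)) / (4 * ρ * ee))) =
      1 / 6 * (co (4 * l) * co (2 * k) - si (4 * l) * si (2 * k)) := by field_simp; ring
  have t4 : ee / 4 * (-(σ * co (6 * l)) * (1 / (6 * σ * ee))) = -(1 / 24) * co (6 * l) := by
    field_simp; ring
  have t5 : ee * (2 * s - 3) / 6 * (co (6 * l) * zz) = co (6 * l) * (1 / 8 - Ξ) := by
    rw [← hz]; ring
  have t6 : 7 * ee / 12 * ((3 * σ - 4 * ρ) / 7 * (co (6 * k) * τ1)) +
      (cc + ee / 7) * (mu * (co (6 * k) * τ2)) = co (6 * k) * Ξ := by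
    unfold Ξ; ring
  unfold PP
  linear_combination t1 + t2 + t3 + t4 + t5 + t6 - (1 / 6) * c1 - (1 / 12) * c2 + (1 / 6) * c3 +
    (1 / 12 - Ξ) * c4

lemma xv_RW (i : ZMod 3) (k : ZMod 12) : ⟪xx (Sum.inr (Sum.inl i)), vv (Sum.inl k)⟫ =
    -(co (6 * k) / (12 * ρ)) * (1 + 2 * co (4 * (k - e3 i))) := by
  rw [xx, vv, inner_vec, sum10]
  simp only [TT, TR, TV, TVW, wt, Matrix.cons_val]
  have c3 := co_shift 4 2 4 k (e3 i) (by ring)
  have h1 := ee_pos; have h2 := ρ_pos; have h3 := σ_pos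
  have t3 : 2 * ee / 3 * (-co (4 * e3 i) * (co (2 * k) / (4 * ρ * ee))) +
      2 * ee / 3 * (-si (4 * e3 i) * (-(si (2 * k)) / (4 * ρ * ee))) =
      -(1 / (6 * ρ)) * (co (4 * e3 i) * co (2 * k) - si (4 * e3 i) * si (2 * k)) := by field_simp; ring
  have c5 : co (4 * (e3 i - k)) = co (4 * (k - e3 i)) := by
    rw [← co_neg]; congr 1; ring
  rw [c3, c5] at t3
  have hE := E0R
  have t7 : -(co (6 * k) / (12 * ρ)) * (1 + 2 * co (4 * (k - e3 i))) =
      co (6 * k) * -(1 / (12 * ρ)) + -(1 / (6 * ρ)) * (co (6 * k) * co (4 * (k - e3 i))) := by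
    field_simp; ring
  rw [t7]
  linear_combination t3 + co (6 * k) * hE

lemma xv_SW (j : ZMod 4) (k : ZMod 12) : ⟪xx (Sum.inr (Sum.inr j)), vv (Sum.inl k)⟫ =
    (co (6 * k) / (24 * σ)) * (1 + 2 * co (3 * (k - e4 j)) + co (6 * (k - e4 j))) := by
  rw [xx, vv, inner_vec, sum10]
  simp only [TT, TS, TV, TVW, wt, Matrix.cons_val]
  have c3 := co_shift 3 3 3 k (e4 j) (by ring)
  have c4 := co_shift 6 0 6 k (e4 j) (by ring)
  simp only [zero_mul, co_0, mul_one, si_0, mul_zero, sub_zero] at c4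
  have h1 := ee_pos; have h2 := ρ_pos; have h3 := σ_pos
  have t3 : ee / 2 * (-co (3 * e4 j) * (-(co (3 * k)) / (6 * σ * ee))) +
      ee / 2 * (-si (3 * e4 j) * (si (3 * k) / (6 * σ * ee))) =
      (1 / (12 * σ)) * (co (3 * e4 j) * co (3 * k) - si (3 * e4 j) * si (3 * k)) := by field_simp; ring
  have t4 : ee / 4 * (co (6 * e4 j) * (1 / (6 * σ * ee))) = (1 / (24 * σ)) * co (6 * e4 j) := by
    field_simp; ring
  have c5 : co (3 * (e4 j - k)) = co (3 * (k - e4 j)) := by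
    rw [← co_neg]; congr 1; ring
  have c6 : co (6 * (e4 j - k)) = co (6 * (k - e4 j)) := by
    rw [← co_neg]; congr 1; ring
  rw [c3, c5] at t3
  have c7 : co (6 * e4 j) = co (6 * k) * co (6 * (k - e4 j)) := by rw [c4, c6]
  have hE := E0S
  have t7 : (co (6 * k) / (24 * σ)) * (1 + 2 * co (3 * (k - e4 j)) + co (6 * (k - e4 j))) =
      co (6 * k) * (1 / (24 * σ)) + (1 / (12 * σ)) * (co (6 * k) * co (3 * (k - e4 j))) +
      (1 / (24 * σ)) * (co (6 * k) * co (6 * (k - e4 j))) := by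
    field_simp; ring
  rw [t7]
  linear_combination t3 + t4 + co (6 * k) * hE + (1 / (24 * σ)) * c7

/-- first order matrix of a field -/
def HH (v : Idx → EuclideanSpace ℝ (Fin 10)) (i j : Idx) : ℝ := ⟪xx i, v j⟫ + ⟪v i, xx j⟫

lemma HH_symm (v : Idx → EuclideanSpace ℝ (Fin 10)) (i j : Idx) : HH v i j = HH v j i := by
  unfold HH
  rw [real_inner_comm (v j) (xx i), real_inner_comm (xx j) (v i)]; ring

lemma PP_even (d : ZMod 12) : PP (-d) = PP d := by
  unfold PP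
  simp only [mul_neg, co_neg]

lemma HvWW (k t : ZMod 12) : HH vv (Sum.inl k) (Sum.inl (k + t)) =
    co (6 * k) * ((1 + co (6 * t)) * PP t) := by
  unfold HH
  rw [real_inner_comm (xx (Sum.inl (k + t))) (vv (Sum.inl k)), xv_WW, xv_WW]
  have e1 : k - (k + t) = -t := by ring
  have e2 : k + t - k = t := by ring
  rw [e1, e2, PP_even, mul_add, co_add, si_six]
  ring

lemma PPt : ∀ t : ZMod 12, (1 + co (6 * t)) * PP t = if t = 6 then 1 else 0 := by
  intro t
  have key : ∀ t : ZMod 12, t ≠ 6 → (1 + co (6 * t)) * PP t = 0 := by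
    apply zcases <;> intro h <;>
      simp only [PP, p3_0, p3_1, p3_2, p3_3, p3_4, p3_5, p3_6, p3_7, p3_8, p3_9, p3_10, p3_11,
        p4_0, p4_1, p4_2, p4_3, p4_4, p4_5, p4_6, p4_7, p4_8, p4_9, p4_10, p4_11,
        p5_0, p5_1, p5_2, p5_3, p5_4, p5_5, p5_6, p5_7, p5_8, p5_9, p5_10, p5_11,
        p6_0, p6_1, p6_2, p6_3, p6_4, p6_5, p6_6, p6_7, p6_8, p6_9, p6_10, p6_11, co_0, co_1, co_2, co_3,
        co_4, co_5, co_6, co_7, co_8, co_9, co_10, co_11] <;>
      first | ring1 | (exact absurd rfl h)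
  split_ifs with h
  · rw [h]
    simp only [PP, p3_6, p4_6, p5_6, p6_6, co_0, co_6]; ring
  · exact key t h

lemma HvWR (k : ZMod 12) (i : ZMod 3) : HH vv (Sum.inl k) (Sum.inr (Sum.inl i)) =
    -(co (6 * k) / (12 * ρ)) * (1 + 2 * co (4 * (k - e3 i))) := by
  unfold HH
  rw [vv_inr, inner_zero_right, real_inner_comm, xv_RW, zero_add]

lemma HvWS (k : ZMod 12) (j : ZMod 4) : HH vv (Sum.inl k) (Sum.inr (Sum.inr j)) =
    (co (6 * k) / (24 * σ)) * (1 + 2 * co (3 * (k - e4 j)) + co (6 * (k - e4 j))) := by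
  unfold HH
  rw [vv_inr, inner_zero_right, real_inner_comm, xv_SW, zero_add]

lemma suppV : Supp (HH vv) where
  symm := HH_symm vv
  ww := fun k t h1 h2 h3 => by rw [HvWW, PPt, if_neg h3, mul_zero]
  wr := fun k i h => by
    rw [HvWR]
    rcases pairR k i with ⟨h2, -⟩ | ⟨-, h2 | h2⟩
    · exact absurd h2 h
    · rw [h2]; simp only [co_4]; ring
    · rw [h2]; simp only [co_8]; ring
  ws := fun k j h => by
    rw [HvWS]
    rcases pairS k j with ⟨h2, -⟩ | ⟨-, ⟨h2, h3⟩ | ⟨h2, h3⟩ | ⟨h2, h3⟩⟩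
    · exact absurd h2 h
    · rw [h2, h3]; simp only [co_3, co_6]; ring
    · rw [h2, h3]; simp only [co_0, co_6]; ring
    · rw [h2, h3]; simp only [co_9, co_6]; ring
  rr := fun i j => by unfold HH; rw [vv_inr, vv_inr, inner_zero_right, inner_zero_left, add_zero]
  ss := fun i j => by unfold HH; rw [vv_inr, vv_inr, inner_zero_right, inner_zero_left, add_zero]
  rs := fun i j => by unfold HH; rw [vv_inr, vv_inr, inner_zero_right, inner_zero_left, add_zero]

lemma ddV (k : ZMod 12) : dd (HH vv) k = 0 := by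
  unfold dd; rw [HvWW, PPt, if_neg (by decide), mul_zero]

lemma ffV (k : ZMod 12) : ff (HH vv) k = co (6 * k) := by
  unfold ff; rw [HvWW, PPt, if_pos rfl, mul_one]

lemma aaV (k : ZMod 12) : aa (HH vv) k = -(1 / (4 * ρ)) * co (6 * k) := by
  have h2 := ρ_pos
  unfold aa
  rw [HvWR]
  rcases pairR k (Rk k) with ⟨-, h⟩ | ⟨h, -⟩
  · rw [h, co_0]; field_simp; ring
  · exact absurd rfl h

lemma bbV (k : ZMod 12) : bb (HH vv) k = 1 / (6 * σ) * co (6 * k) := by
  have h2 := σ_pos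
  unfold bb
  rw [HvWS]
  rcases pairS k (Sk k) with ⟨-, h, h'⟩ | ⟨h, -⟩
  · rw [h, h', co_0]; field_simp; ring
  · exact absurd rfl h

end

end H16Jam
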